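import Pool.Agent.Q43.KM.Coord

/-! # The abstract form of the computation -/

universe u

namespace Q43.KM

open MvPowerSeries IsLocalRing RingTheory.Sequence

variable {k : Type u} [Field k] {g : ℕ} {R : Type u} [CommRing R] [Algebra k R]

/-- The data: a power series subring `P`, a basis of squarefree monomials in `x`, an involution
over `P`, and a system of parameters `w` of `P` approximating the elements `x_i + ι x_i`. -/
structure Datum (k : Type u) [Field k] (g : ℕ) (R : Type u) [CommRing R] [Algebra k R]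
    [IsLocalRing R] where
  φ : MvPowerSeries (Fin g) k →ₐ[k] R
  x : Fin g → R
  ι : R →ₐ[k] R
  w : Fin g → MvPowerSeries (Fin g) k
  ιφ : ∀ p, ι (φ p) = φ p
  ιι : ∀ r, ι (ι r) = r
  hb : Function.Bijective (comb φ x)
  hw : ∀ i, constantCoeff (w i) = 0
  hx : ∀ i, x i ∈ maximalIdeal R
  hφ : ∀ p, constantCoeff p = 0 → φ p ∈ maximalIdeal R
  haw : ∀ i, (x i + ι (x i)) - φ (w i) ∈ maximalIdeal R * (Ideal.span (Set.range w)).map φ
  hfin : FiniteDimensional k (R ⧸ (Ideal.span (Set.range w)).map φ)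
  rs : List R
  hrs : ∀ r ∈ rs, r ∈ maximalIdeal R
  hlen : rs.length = g
  hreg : IsWeaklyRegular R rs

namespace Datum

variable [IsLocalRing R] (D : Datum k g R)

/-- The ideal `W` of `P` generated by the `w_i`. -/
noncomputable def W : Ideal (MvPowerSeries (Fin g) k) := Ideal.span (Set.range D.w)

/-- The ideal `J` of `R` generated by the `w_i`. -/
noncomputable def J : Ideal R := D.W.map D.φ

/-- The elements `a_i = x_i + ι x_i`. -/
def a (i : Fin g) : R := D.x i + D.ι (D.x i)

/-- The trace operator `T = 1 + ι`. -/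
noncomputable def T : R →ₗ[k] R := LinearMap.id + D.ι.toLinearMap

theorem T_apply (r : R) : D.T r = r + D.ι r := rfl

theorem w_mem (i : Fin g) : D.φ (D.w i) ∈ D.J :=
  Ideal.mem_map_of_mem _ (Ideal.subset_span ⟨i, rfl⟩)

theorem J_le : D.J ≤ maximalIdeal R := by
  rw [J, W, Ideal.map_span, Ideal.span_le]
  rintro _ ⟨_, ⟨i, rfl⟩, rfl⟩
  exact D.hφ _ (D.hw i)

theorem a_mem (i : Fin g) : D.a i ∈ D.J := by
  have h1 : _ ∈ D.J := Ideal.mul_le_right (D.haw i)
  have h2 : D.a i = ((D.x i + D.ι (D.x i)) - D.φ (D.w i)) + D.φ (D.w i) := by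
    rw [a]; ring
  rw [h2]
  exact D.J.add_mem h1 (D.w_mem i)

theorem J_fg : D.J.FG := by
  rw [J, W, Ideal.map_span]
  exact Submodule.fg_span ((Set.finite_range _).image _)

/-- By Nakayama, the `a_i` generate `J`. -/
theorem span_a : Ideal.span (Set.range D.a) = D.J := by
  apply le_antisymm
  · rw [Ideal.span_le]
    rintro _ ⟨i, rfl⟩
    exact D.a_mem i
  · refine Submodule.le_of_le_smul_of_le_jacobson_bot (I := maximalIdeal R) D.J_fg
      (IsLocalRing.maximalIdeal_le_jacobson _) ?_
    conv_lhs => rw [J, W, Ideal.map_span]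
    rw [Ideal.span_le]
    rintro _ ⟨_, ⟨i, rfl⟩, rfl⟩
    have h2 : D.φ (D.w i) = D.a i - ((D.x i + D.ι (D.x i)) - D.φ (D.w i)) := by
      rw [a]; ring
    rw [SetLike.mem_coe, show (D.φ : MvPowerSeries (Fin g) k → R) (D.w i) = _ from h2]
    exact Submodule.sub_mem _ (Submodule.mem_sup_left (Ideal.subset_span ⟨i, rfl⟩))
      (Submodule.mem_sup_right (D.haw i))

theorem ofList_a : Ideal.ofList (List.ofFn D.a) = D.J := by
  rw [← D.span_a, Ideal.ofList]
  congr 1
  ext z
  simp [List.mem_ofFn]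

section char2

variable [CharP k 2]

include D in
theorem two_zero : (2 : R) = 0 := by
  have h : (2 : k) = 0 := CharTwo.two_eq_zero
  have := congrArg (algebraMap k R) h
  rw [map_ofNat, map_zero] at this
  exact this

include D in
theorem add_self (r : R) : r + r = 0 := by
  have h := D.two_zero
  linear_combination r * h

theorem TT (r : R) : D.T (D.T r) = 0 := by
  rw [T_apply, T_apply, map_add, D.ιι]
  have h := D.add_self (r + D.ι r)
  linear_combination h

theorem ι_of_T {s : R} (h : D.T s = 0) : D.ι s = s := by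
  rw [T_apply] at h
  have h2 := D.add_self s
  linear_combination h - h2

theorem T_of_ι {s : R} (h : D.ι s = s) : D.T s = 0 := by
  rw [T_apply, h, D.add_self]

omit [CharP k 2] in
theorem T_mul {s : R} (h : D.ι s = s) (r : R) : D.T (s * r) = s * D.T r := by
  rw [T_apply, T_apply, map_mul, h]; ring

omit [CharP k 2] in
theorem T_φ (p : MvPowerSeries (Fin g) k) (r : R) : D.T (D.φ p * r) = D.φ p * D.T r :=
  D.T_mul (D.ιφ p) r

theorem ι_T (r : R) : D.ι (D.T r) = D.T r := D.ι_of_T (D.TT r)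

theorem ι_a (i : Fin g) : D.ι (D.a i) = D.a i := D.ι_T (D.x i)

omit [CharP k 2] in
theorem T_x (i : Fin g) : D.T (D.x i) = D.a i := rfl

theorem T_prod (r s : R) : D.T (r * s) = D.T r * s + D.ι r * D.T s := by
  rw [T_apply, T_apply, T_apply, map_mul]
  have h2 := D.add_self (D.ι r * s)
  linear_combination - h2

theorem good_a (i : Fin g) : Good D.T (D.a i) := by
  refine ⟨fun r => D.T_mul (D.ι_a i) r, D.x i, D.ι (D.x i), fun r => ?_⟩
  rw [D.T_prod, D.T_x]
  have h2 := D.add_self (D.ι (D.x i) * D.T r)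
  linear_combination - h2

/-- The image of the trace is contained in `J`. -/
theorem T_mono_mem (I : Finset (Fin g)) : D.T (∏ i ∈ I, D.x i) ∈ D.J := by
  classical
  induction I using Finset.induction_on with
  | empty =>
    rw [Finset.prod_empty, D.T_of_ι (map_one _)]
    exact D.J.zero_mem
  | insert i I hi ih =>
    rw [Finset.prod_insert hi, D.T_prod, D.T_x]
    exact D.J.add_mem (D.J.mul_mem_right _ (D.a_mem i)) (D.J.mul_mem_left _ ih)

omit [CharP k 2] in
theorem T_comb (c : Finset (Fin g) → MvPowerSeries (Fin g) k) :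
    D.T (comb D.φ D.x c) = ∑ I, D.φ (c I) * D.T (∏ i ∈ I, D.x i) := by
  rw [comb, map_sum]
  exact Finset.sum_congr rfl (fun I _ => D.T_φ _ _)

theorem T_mem (r : R) : D.T r ∈ D.J := by
  rw [← comb_coord D.φ D.x D.hb r, T_comb]
  exact Ideal.sum_mem _ (fun I _ => D.J.mul_mem_left _ (D.T_mono_mem I))

/-- For at least two factors, the trace of a monomial is in `m J`. -/
theorem T_mono_mem' (I : Finset (Fin g)) (hI : 2 ≤ I.card) :
    D.T (∏ i ∈ I, D.x i) ∈ maximalIdeal R * D.J := by
  classical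
  obtain ⟨i, hi⟩ : I.Nonempty := Finset.card_pos.1 (by omega)
  have hcard : (I.erase i).card = I.card - 1 := Finset.card_erase_of_mem hi
  obtain ⟨j, hj⟩ : (I.erase i).Nonempty := Finset.card_pos.1 (by omega)
  rw [← Finset.mul_prod_erase I D.x hi, D.T_prod, D.T_x]
  refine Ideal.add_mem _ ?_ ?_
  · refine Ideal.mul_mem_mul_rev ?_ (D.a_mem i)
    rw [← Finset.mul_prod_erase _ D.x hj]
    exact Ideal.mul_mem_right _ _ (D.hx j)
  · refine Ideal.mul_mem_mul ?_ (D.T_mem _)
    have h1 : D.ι (D.x i) = D.a i - D.x i := by rw [a]; ring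
    rw [h1]
    exact Ideal.sub_mem _ (D.J_le (D.a_mem i)) (D.hx i)

/-! ### Regularity -/

variable [IsNoetherianRing R]

omit [CharP k 2] [IsNoetherianRing R] in
/-- A power of the maximal ideal is contained in `J`. -/
theorem rad : maximalIdeal R ≤ D.J.radical := by
  have : FiniteDimensional k (R ⧸ D.J) := D.hfin
  have : IsArtinianRing (R ⧸ D.J) := isArtinian_of_tower k inferInstance
  intro r hr
  by_cases hJ : D.J = ⊤
  · rw [hJ, Ideal.radical_top]; trivial
  have hnt : Nontrivial (R ⧸ D.J) := Ideal.Quotient.nontrivial_iff.2 hJ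
  have hloc : IsLocalRing (R ⧸ D.J) := IsLocalRing.of_surjective' _ Ideal.Quotient.mk_surjective
  have hnil : IsNilpotent (maximalIdeal (R ⧸ D.J)) := by
    rw [← IsLocalRing.jacobson_eq_maximalIdeal ⊥ bot_ne_top]
    exact IsArtinianRing.isNilpotent_jacobson_bot
  obtain ⟨n, hn⟩ := hnil
  have hmem : Ideal.Quotient.mk D.J r ∈ maximalIdeal (R ⧸ D.J) := by
    rw [IsLocalRing.mem_maximalIdeal, mem_nonunits_iff]
    intro hu
    obtain ⟨s, hs⟩ := hu.exists_right_inv
    obtain ⟨s, rfl⟩ := Ideal.Quotient.mk_surjective s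
    rw [← map_mul, ← map_one (Ideal.Quotient.mk D.J), Ideal.Quotient.eq] at hs
    have h1 := (maximalIdeal R).sub_mem ((maximalIdeal R).mul_mem_right s hr) (D.J_le hs)
    rw [sub_sub_cancel] at h1
    exact (Ideal.ne_top_iff_one _).1 (Ideal.IsPrime.ne_top inferInstance) h1
  refine ⟨n, ?_⟩
  rw [← Ideal.Quotient.eq_zero_iff_mem, map_pow]
  have := Ideal.pow_mem_pow hmem n
  rw [hn] at this
  exact this

omit [CharP k 2] in
theorem reg_a : IsWeaklyRegular R (List.ofFn D.a) := by
  refine isWeaklyRegular_of_primary D.rs (List.ofFn D.a) D.hrs D.hreg ?_ ?_ ?_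
  · rw [List.length_ofFn, D.hlen]
  · intro x hx
    obtain ⟨i, rfl⟩ := (List.mem_ofFn' D.a x).1 hx
    exact D.J_le (D.a_mem i)
  · rw [D.ofList_a]
    exact D.rad

omit [CharP k 2] [IsNoetherianRing R] in
theorem finPW : FiniteDimensional k (MvPowerSeries (Fin g) k ⧸ D.W) := by
  have h1 : FiniteDimensional k (R ⧸ D.W.map D.φ) := D.hfin
  have h2 : FiniteDimensional k (Finset (Fin g) → (MvPowerSeries (Fin g) k ⧸ D.W)) :=
    LinearEquiv.finiteDimensional (quotEquiv D.φ D.x D.hb D.W)
  exact Module.Finite.of_surjective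
    (LinearMap.proj (R := k) (φ := fun _ : Finset (Fin g) => MvPowerSeries (Fin g) k ⧸ D.W) ∅)
    (LinearMap.proj_surjective ∅)

omit [CharP k 2] [IsNoetherianRing R] in
theorem finrank_quot :
    Module.finrank k (R ⧸ D.J) = 2 ^ g * Module.finrank k (MvPowerSeries (Fin g) k ⧸ D.W) := by
  have := D.finPW
  have h := LinearEquiv.finrank_eq (quotEquiv D.φ D.x D.hb D.W)
  change Module.finrank k (R ⧸ D.W.map D.φ) = _
  rw [h, Module.finrank_pi_fintype]
  simp

/-- A space of invariants meeting the image of the trace trivially has dimension at most the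
colength of `W` in `P`. -/
theorem finrank_le (V : Submodule k R) [FiniteDimensional k V] (hV : ∀ v ∈ V, D.T v = 0)
    (hdisj : ∀ v ∈ V, (∃ r, v = D.T r) → v = 0) :
    Module.finrank k V ≤ Module.finrank k (MvPowerSeries (Fin g) k ⧸ D.W) := by
  have h := hom_bound D.T D.TT (List.ofFn D.a) (fun x hx => by
    obtain ⟨i, rfl⟩ := (List.mem_ofFn' D.a x).1 hx
    exact D.good_a i) D.reg_a (by rw [D.ofList_a]; exact D.hfin) V hV hdisj
  rw [D.ofList_a, D.finrank_quot, List.length_ofFn] at h
  exact Nat.le_of_mul_le_mul_left h (by positivity)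

omit [CharP k 2] [IsNoetherianRing R] in
theorem φ_mem_J {p : MvPowerSeries (Fin g) k} : D.φ p ∈ D.J ↔ p ∈ D.W := by
  constructor
  · intro h
    have := (mem_map_iff D.φ D.x D.hb D.W _).1 h ∅
    rwa [coord_phi, Pi.single_eq_same] at this
  · intro h
    exact Ideal.mem_map_of_mem _ h

/-- The structure theorem: every invariant is a sum of an element of `P` and a trace, and the
elements of `W` are traces. -/
theorem structure_thm :
    (∀ s, D.T s = 0 → ∃ p r, s = D.φ p + D.T r) ∧
    (∀ q ∈ D.W, ∃ r, D.φ q = D.T r) := by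
  have hfin := D.finPW
  obtain ⟨C, hC⟩ := Submodule.exists_isCompl (D.W.restrictScalars k)
  have hCW : ∀ c ∈ C, c ∈ D.W → c = 0 := by
    intro c hc hcW
    exact (Submodule.disjoint_def.1 hC.disjoint) c hcW hc
  -- dimension of C
  let eC : (MvPowerSeries (Fin g) k ⧸ D.W.restrictScalars k) ≃ₗ[k] C :=
    Submodule.quotientEquivOfIsCompl _ _ hC
  let eC' : (MvPowerSeries (Fin g) k ⧸ D.W) ≃ₗ[k] C :=
    (Submodule.Quotient.restrictScalarsEquiv k D.W).symm.trans eC
  have hCfin : FiniteDimensional k C := LinearEquiv.finiteDimensional eC'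
  have hinj := phi_injective D.φ D.x D.hb
  set V0 : Submodule k R := C.map D.φ.toLinearMap with hV0
  have hV0fin : FiniteDimensional k V0 := inferInstance
  have hV0dim : Module.finrank k V0 = Module.finrank k (MvPowerSeries (Fin g) k ⧸ D.W) := by
    rw [LinearEquiv.finrank_eq eC']
    exact (LinearEquiv.finrank_eq (Submodule.equivMapOfInjective D.φ.toLinearMap hinj C)).symm
  have hV0T : ∀ v ∈ V0, ∀ r, v = D.T r → v = 0 := by
    rintro _ ⟨c, hc, rfl⟩ r hr
    have h1 : D.φ c ∈ D.J := by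
      change D.φ.toLinearMap c ∈ D.J
      rw [hr]; exact D.T_mem r
    have h2 := hCW c hc (D.φ_mem_J.1 h1)
    rw [h2, map_zero]
  have hmain : ∀ s, D.T s = 0 → ∃ c ∈ C, ∃ r, s = D.φ c + D.T r := by
    intro s hs
    by_contra hcon
    have hsV0 : s ∉ V0 := by
      rintro ⟨c, hc, rfl⟩
      exact hcon ⟨c, hc, 0, by rw [map_zero, add_zero]; rfl⟩
    have hle := D.finrank_le (V0 ⊔ Submodule.span k {s}) ?_ ?_
    · have hlt : V0 < V0 ⊔ Submodule.span k {s} := by
        refine lt_of_le_of_ne le_sup_left (fun h => hsV0 ?_)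
        rw [h]
        exact Submodule.mem_sup_right (Submodule.mem_span_singleton_self s)
      have := Submodule.finrank_lt_finrank_of_lt hlt
      omega
    · intro v hv
      obtain ⟨v0, ⟨c, _, rfl⟩, v1, hv1, rfl⟩ := Submodule.mem_sup.1 hv
      obtain ⟨b, rfl⟩ := Submodule.mem_span_singleton.1 hv1
      rw [map_add, map_smul, hs, smul_zero, add_zero]
      exact D.T_of_ι (D.ιφ c)
    · rintro v hv ⟨r, hr⟩
      obtain ⟨v0, hv0, v1, hv1, rfl⟩ := Submodule.mem_sup.1 hv
      obtain ⟨b, rfl⟩ := Submodule.mem_span_singleton.1 hv1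
      by_cases hb : b = 0
      · rw [hb, zero_smul, add_zero] at hr ⊢
        exact hV0T _ hv0 r hr
      · exfalso
        obtain ⟨c, hc, rfl⟩ := hv0
        refine hcon ⟨-(b⁻¹ • c), C.neg_mem (C.smul_mem _ hc), b⁻¹ • r, ?_⟩
        have h1 : s = b⁻¹ • (b • s) := by rw [smul_smul, inv_mul_cancel₀ hb, one_smul]
        have h2 : b • s = D.T r - D.φ c := by
          rw [← hr]
          change _ = D.φ c + b • s - D.φ c
          ring
        rw [h1, h2, map_neg, map_smul, map_smul, smul_sub]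
        ring
  refine ⟨fun s hs => ?_, fun q hq => ?_⟩
  · obtain ⟨c, _, r, h⟩ := hmain s hs
    exact ⟨c, r, h⟩
  · obtain ⟨c, hc, r, h⟩ := hmain (D.φ q) (D.T_of_ι (D.ιφ q))
    have h1 : D.φ (q - c) ∈ D.J := by
      have : D.φ (q - c) = D.T r := by rw [map_sub, h]; ring
      rw [this]; exact D.T_mem r
    have h2 : c ∈ D.W := by
      have h3 := D.W.sub_mem hq (D.φ_mem_J.1 h1)
      rwa [sub_sub_cancel] at h3
    rw [hCW c hc h2, map_zero, zero_add] at h
    exact ⟨r, h⟩

end char2

end Datum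

end Q43.KM
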