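import Pool.Agent.Q43.KM.Emb

/-! # The squarefree monomials form a basis over `k[[u]]` if `u_i` is `X_i ^ 2` plus terms of
degree at least three -/

universe u

namespace Q43.KM

open MvPowerSeries

variable {k : Type u} [Field k] {g : ℕ}

/-- Contraction: `1 - h` is surjective if `h` raises the order. -/
theorem surj_of_contract (h : MvPowerSeries (Fin g) k →ₗ[k] MvPowerSeries (Fin g) k)
    (hh : ∀ (n : ℕ) r, (n : ℕ∞) ≤ order r → ((n + 1 : ℕ) : ℕ∞) ≤ order (h r))
    (f : MvPowerSeries (Fin g) k) : ∃ s, s - h s = f := by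
  have hpow : ∀ n : ℕ, (n : ℕ∞) ≤ order ((h ^ n) f) := by
    intro n
    induction n with
    | zero => simp
    | succ n ih =>
      rw [pow_succ', Module.End.mul_apply]
      exact hh n _ ih
  let s : MvPowerSeries (Fin g) k := fun m => coeff m (∑ j ∈ Finset.range (m.degree + 1), (h ^ j) f)
  have hs : ∀ m, coeff m s = coeff m (∑ j ∈ Finset.range (m.degree + 1), (h ^ j) f) := fun m => rfl
  have happ : ∀ n : ℕ, (n : ℕ∞) ≤ order (s - ∑ j ∈ Finset.range n, (h ^ j) f) := by
    intro n
    refine nat_le_order (fun m hm => ?_)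
    rw [map_sub, hs, sub_eq_zero]
    have hle : m.degree + 1 ≤ n := hm
    rw [← Finset.sum_range_add_sum_Ico _ hle, map_add, left_eq_add, map_sum]
    refine Finset.sum_eq_zero (fun j hj => ?_)
    rw [Finset.mem_Ico] at hj
    refine coeff_of_lt_order (lt_of_lt_of_le ?_ (hpow j))
    exact_mod_cast (by omega : m.degree < j)
  refine ⟨s, ?_⟩
  have hall : ∀ n : ℕ, (n : ℕ∞) ≤ order (s - h s - f) := by
    intro n
    have h1 := happ n
    have h2 := hh n _ h1
    have h3 : s - h s - f = (s - ∑ j ∈ Finset.range n, (h ^ j) f)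
        + (-(h (s - ∑ j ∈ Finset.range n, (h ^ j) f))) + (-((h ^ n) f)) := by
      have h4 : h (∑ j ∈ Finset.range n, (h ^ j) f) = ∑ j ∈ Finset.range n, (h ^ (j + 1)) f := by
        rw [map_sum]
        refine Finset.sum_congr rfl (fun j _ => ?_)
        rw [pow_succ', Module.End.mul_apply]
      have h5 : ∑ j ∈ Finset.range n, (h ^ (j + 1)) f + f
          = ∑ j ∈ Finset.range n, (h ^ j) f + (h ^ n) f := by
        have h6 := Finset.sum_range_succ' (fun j => (h ^ j) f) n
        rw [Finset.sum_range_succ] at h6
        rw [h6]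
        simp
      rw [map_sub, h4]
      linear_combination - h5
    rw [h3]
    refine le_trans (le_min (le_trans (le_min h1 ?_) (min_order_le_add)) ?_) (min_order_le_add)
    · rw [order_neg]
      exact le_trans (by exact_mod_cast Nat.le_succ n) h2
    · rw [order_neg]
      exact hpow n
  have htop : order (s - h s - f) = ⊤ := by
    by_contra hne
    obtain ⟨n, hn⟩ := ENat.ne_top_iff_exists.1 hne
    have := hall (n + 1)
    rw [← hn] at this
    have h7 : n + 1 ≤ n := by exact_mod_cast this
    omega
  rw [order_eq_top_iff, sub_eq_zero] at htop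
  exact htop

/-- The indicator exponent. -/
noncomputable def ind (I : Finset (Fin g)) : Fin g →₀ ℕ := ∑ i ∈ I, Finsupp.single i 1

theorem ind_apply (I : Finset (Fin g)) (j : Fin g) : ind I j = if j ∈ I then 1 else 0 := by
  classical
  rw [ind, Finsupp.finsetSum_apply]
  simp only [Finsupp.single_apply]
  rw [Finset.sum_ite_eq' I j]

theorem prod_X (I : Finset (Fin g)) :
    (∏ i ∈ I, (X i : MvPowerSeries (Fin g) k)) = monomial (ind I) 1 := by
  classical
  induction I using Finset.induction_on with
  | empty =>
    rw [Finset.prod_empty, ind, Finset.sum_empty]; rfl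
  | insert i I hi ih =>
    rw [Finset.prod_insert hi, ih, X, monomial_mul_monomial, ind, ind, Finset.sum_insert hi, one_mul]

theorem degree_ind (I : Finset (Fin g)) : (ind I).degree = I.card := by
  rw [ind, map_sum]
  simp

/-- The odd part of an exponent. -/
noncomputable def oddp (m : Fin g →₀ ℕ) : Finset (Fin g) := Finset.univ.filter (fun i => m i % 2 = 1)

/-- Half of an exponent, rounded down. -/
noncomputable def half (m : Fin g →₀ ℕ) : Fin g →₀ ℕ := m.mapRange (fun a => a / 2) (by simp)

theorem half_apply (m : Fin g →₀ ℕ) (i : Fin g) : half m i = m i / 2 := rfl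

theorem recomp (m : Fin g →₀ ℕ) : 2 • half m + ind (oddp m) = m := by
  classical
  ext i
  rw [Finsupp.add_apply, Finsupp.smul_apply, half_apply, ind_apply, oddp]
  simp only [Finset.mem_filter, Finset.mem_univ, true_and, smul_eq_mul]
  split_ifs <;> omega

theorem oddp_comp (a : Fin g →₀ ℕ) (I : Finset (Fin g)) : oddp (2 • a + ind I) = I := by
  classical
  ext i
  rw [oddp, Finset.mem_filter, Finsupp.add_apply, Finsupp.smul_apply, ind_apply, smul_eq_mul]
  split_ifs with h
  · simp [h]
  · simp [h]

theorem half_comp (a : Fin g →₀ ℕ) (I : Finset (Fin g)) : half (2 • a + ind I) = a := by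
  classical
  ext i
  rw [half_apply, Finsupp.add_apply, Finsupp.smul_apply, ind_apply, smul_eq_mul]
  split_ifs <;> omega

/-- The standard expansion. -/
noncomputable abbrev φ0 : MvPowerSeries (Fin g) k →ₐ[k] MvPowerSeries (Fin g) k :=
  expand 2 two_ne_zero

theorem coeff_comb0 (c : Finset (Fin g) → MvPowerSeries (Fin g) k) (m : Fin g →₀ ℕ) :
    coeff m (comb φ0 (fun i => (X i : MvPowerSeries (Fin g) k)) c) = coeff (half m) (c (oddp m)) := by
  classical
  rw [comb, map_sum, Finset.sum_eq_single (oddp m)]
  · rw [prod_X, coeff_mul_monomial, if_pos]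
    · have h1 : m - ind (oddp m) = 2 • half m := by
        conv_lhs => rw [← recomp m]
        rw [oddp_comp, add_tsub_cancel_right]
      rw [h1, coeff_expand_smul, mul_one]
    · conv_rhs => rw [← recomp m]
      exact le_add_left le_rfl
  · intro I _ hI
    rw [prod_X, coeff_mul_monomial]
    split_ifs with hle
    · have hex : ∃ i, ¬ 2 ∣ (m - ind I) i := by
        by_contra hcon
        simp only [not_exists, not_not] at hcon
        apply hI
        ext i
        have h1 := hcon i
        have h2 := hle i
        rw [Finsupp.tsub_apply] at h1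
        rw [ind_apply] at h1 h2
        rw [oddp, Finset.mem_filter]
        simp only [Finset.mem_univ, true_and]
        split_ifs at h1 h2 with hi
        · simp only [hi, true_iff]; omega
        · simp only [hi, false_iff]; omega
      obtain ⟨i, hi⟩ := hex
      rw [coeff_expand_of_not_dvd 2 two_ne_zero _ hi, zero_mul]
    · rfl
  · intro h; exact absurd (Finset.mem_univ _) h

theorem comb0_bijective :
    Function.Bijective (comb φ0 (fun i => (X i : MvPowerSeries (Fin g) k))) := by
  constructor
  · intro c d h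
    funext I
    ext a
    have := congrArg (coeff (2 • a + ind I)) h
    rwa [coeff_comb0, coeff_comb0, oddp_comp, half_comp] at this
  · intro f
    refine ⟨fun I a => coeff (2 • a + ind I) f, ?_⟩
    ext m
    rw [coeff_comb0]
    change coeff (2 • half m + ind (oddp m)) f = _
    rw [recomp]

/-- Splitting off the variables with control of the order. -/
theorem split_vars (n : ℕ) (p : MvPowerSeries (Fin g) k) (hp : ((n + 1 : ℕ) : ℕ∞) ≤ order p) :
    ∃ q : Fin g → MvPowerSeries (Fin g) k, p = ∑ i, X i * q i ∧ ∀ i, (n : ℕ∞) ≤ order (q i) := by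
  classical
  let q : Fin g → MvPowerSeries (Fin g) k := fun i a =>
    if ∀ j < i, a j = 0 then coeff (a + Finsupp.single i 1) p else 0
  have hq : ∀ i a, coeff a (q i) = if ∀ j < i, a j = 0 then coeff (a + Finsupp.single i 1) p else 0 :=
    fun i a => rfl
  refine ⟨q, ?_, ?_⟩
  · ext m
    rw [map_sum]
    have hterm : ∀ i, coeff m (X i * q i)
        = if 1 ≤ m i ∧ ∀ j < i, m j = 0 then coeff m p else 0 := by
      intro i
      rw [X, coeff_monomial_mul]
      by_cases h1 : 1 ≤ m i
      · have hle : Finsupp.single i 1 ≤ m := Finsupp.single_le_iff.2 h1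
        rw [if_pos hle, hq, one_mul, tsub_add_cancel_of_le hle]
        have hiff : (∀ j < i, (m - Finsupp.single i 1 : Fin g →₀ ℕ) j = 0) ↔ (1 ≤ m i ∧ ∀ j < i, m j = 0) := by
          constructor
          · intro h
            refine ⟨h1, fun j hj => ?_⟩
            have h2 := h j hj
            rw [Finsupp.tsub_apply, Finsupp.single_apply, if_neg (ne_of_gt hj)] at h2
            simpa using h2
          · intro h j hj
            rw [Finsupp.tsub_apply, h.2 j hj]
            simp
        exact if_congr hiff rfl rfl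
      · have hle : ¬ Finsupp.single i 1 ≤ m := fun h => h1 (Finsupp.single_le_iff.1 h)
        rw [if_neg hle, if_neg (fun h => h1 h.1)]
    rw [Finset.sum_congr rfl (fun i _ => hterm i)]
    by_cases hm : m = 0
    · have h0 : coeff m p = 0 := by
        refine coeff_of_lt_order (lt_of_lt_of_le ?_ hp)
        rw [hm, map_zero]
        exact_mod_cast Nat.succ_pos n
      rw [h0]
      simp
    · have hne : (Finset.univ.filter (fun i => 1 ≤ m i)).Nonempty := by
        obtain ⟨i, hi⟩ := Finsupp.ne_iff.1 hm
        refine ⟨i, ?_⟩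
        rw [Finset.mem_filter]
        exact ⟨Finset.mem_univ _, Nat.one_le_iff_ne_zero.2 hi⟩
      set i0 := (Finset.univ.filter (fun i => 1 ≤ m i)).min' hne with hi0
      have hi0mem := Finset.min'_mem _ hne
      rw [← hi0, Finset.mem_filter] at hi0mem
      rw [Finset.sum_eq_single i0]
      · rw [if_pos]
        refine ⟨hi0mem.2, fun j hj => ?_⟩
        by_contra hj0
        have : i0 ≤ j := Finset.min'_le _ _ (by
          rw [Finset.mem_filter]
          exact ⟨Finset.mem_univ _, Nat.one_le_iff_ne_zero.2 hj0⟩)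
        exact absurd hj (not_lt.2 this)
      · intro j _ hj
        rw [if_neg]
        rintro ⟨h1, h2⟩
        rcases lt_trichotomy j i0 with h3 | h3 | h3
        · have : i0 ≤ j := Finset.min'_le _ _ (by
            rw [Finset.mem_filter]
            exact ⟨Finset.mem_univ _, h1⟩)
          exact absurd h3 (not_lt.2 this)
        · exact hj h3
        · have := h2 i0 h3
          have := hi0mem.2
          omega
      · intro h; exact absurd (Finset.mem_univ _) h
  · intro i
    refine nat_le_order (fun a ha => ?_)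
    rw [hq]
    split_ifs
    · refine coeff_of_lt_order (lt_of_lt_of_le ?_ hp)
      rw [map_add, Finsupp.degree_single]
      exact_mod_cast Nat.succ_lt_succ ha
    · rfl

theorem le_add_order {n : ℕ∞} {a b : MvPowerSeries (Fin g) k} (ha : n ≤ order a)
    (hb : n ≤ order b) : n ≤ order (a + b) := le_trans (le_min ha hb) min_order_le_add

theorem le_sum_order {ι : Type*} (s : Finset ι) {n : ℕ∞} (f : ι → MvPowerSeries (Fin g) k)
    (hf : ∀ i ∈ s, n ≤ order (f i)) : n ≤ order (∑ i ∈ s, f i) := by
  classical
  induction s using Finset.induction_on with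
  | empty => rw [Finset.sum_empty, order_zero]; exact le_top
  | insert i s hi ih =>
    rw [Finset.sum_insert hi]
    exact le_add_order (hf i (Finset.mem_insert_self i s))
      (ih (fun j hj => hf j (Finset.mem_insert_of_mem hj)))

theorem le_mul_order {m n : ℕ} {a b : MvPowerSeries (Fin g) k} (ha : (m : ℕ∞) ≤ order a)
    (hb : (n : ℕ∞) ≤ order b) : ((m + n : ℕ) : ℕ∞) ≤ order (a * b) := by
  rw [Nat.cast_add]
  exact le_trans (add_le_add ha hb) le_order_mul

theorem order_X_sq (i : Fin g) : ((2 : ℕ) : ℕ∞) ≤ order ((X i : MvPowerSeries (Fin g) k) ^ 2) := by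
  have h1 : ((1 : ℕ) : ℕ∞) ≤ order (X i : MvPowerSeries (Fin g) k) := by
    rw [Nat.cast_one, one_le_order_iff_constCoeff_eq_zero, constantCoeff_X]
  rw [pow_two]
  exact le_mul_order h1 h1

section perturb

variable {u : Fin g → MvPowerSeries (Fin g) k}

theorem order_subst (hs : HasSubst u) (hu2 : ∀ i, ((2 : ℕ) : ℕ∞) ≤ order (u i)) (d : ℕ)
    (p : MvPowerSeries (Fin g) k) (hp : (d : ℕ∞) ≤ order p) :
    ((2 * d : ℕ) : ℕ∞) ≤ order (substAlgHom (R := k) hs p) := by
  rw [substAlgHom_apply]
  refine le_trans ?_ (le_order_subst hs p)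
  rw [Nat.cast_mul]
  exact mul_le_mul' (le_iInf hu2) hp

theorem const_subst (hs : HasSubst u) (hu0 : ∀ i, constantCoeff (u i) = 0)
    (p : MvPowerSeries (Fin g) k) :
    constantCoeff (substAlgHom (R := k) hs p) = constantCoeff p := by
  have h1 : p = (p - C (constantCoeff p)) + C (constantCoeff p) := by ring
  have h2 : substAlgHom (R := k) hs (C (constantCoeff p)) = C (constantCoeff p) := by
    change substAlgHom (R := k) hs (algebraMap k _ _) = _
    rw [AlgHom.commutes]; rfl
  have h3 : constantCoeff (substAlgHom (R := k) hs (p - C (constantCoeff p))) = 0 := by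
    rw [substAlgHom_apply]
    refine constantCoeff_subst_eq_zero hs hu0 ?_
    rw [map_sub, constantCoeff_C, sub_self]
  conv_lhs => rw [h1, map_add, map_add, h3, h2, constantCoeff_C, zero_add]

/-- The difference of the two substitutions raises the order. -/
theorem order_diff (hs : HasSubst u) (hu0 : ∀ i, constantCoeff (u i) = 0)
    (hu2 : ∀ i, ((2 : ℕ) : ℕ∞) ≤ order (u i))
    (hu3 : ∀ i, ((3 : ℕ) : ℕ∞) ≤ order (u i - X i ^ 2)) (d : ℕ) :
    ∀ (p : MvPowerSeries (Fin g) k), (d : ℕ∞) ≤ order p →
    ((2 * d + 1 : ℕ) : ℕ∞) ≤ order (substAlgHom (R := k) hs p - φ0 p) := by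
  induction d with
  | zero =>
    intro p _
    have h : ((1 : ℕ) : ℕ∞) ≤ order (substAlgHom (R := k) hs p - φ0 p) := by
      rw [Nat.cast_one, one_le_order_iff_constCoeff_eq_zero, map_sub, const_subst hs hu0,
        constantCoeff_expand, sub_self]
    exact h
  | succ d ih =>
    intro p hp
    obtain ⟨q, rfl, hq⟩ := split_vars d p hp
    have h1 : substAlgHom (R := k) hs (∑ i, X i * q i) - φ0 (∑ i, X i * q i)
        = ∑ i, ((u i - X i ^ 2) * substAlgHom (R := k) hs (q i)
          + X i ^ 2 * (substAlgHom (R := k) hs (q i) - φ0 (q i))) := by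
      rw [map_sum, map_sum, ← Finset.sum_sub_distrib]
      refine Finset.sum_congr rfl (fun i _ => ?_)
      rw [map_mul, map_mul, substAlgHom_X, expand_X]
      ring
    rw [h1]
    refine le_sum_order _ _ (fun i _ => le_add_order ?_ ?_)
    · have := le_mul_order (hu3 i) (order_subst hs hu2 d (q i) (hq i))
      rwa [show 3 + 2 * d = 2 * (d + 1) + 1 by ring] at this
    · have := le_mul_order (order_X_sq (k := k) i) (ih (q i) (hq i))
      rwa [show 2 + (2 * d + 1) = 2 * (d + 1) + 1 by ring] at this

theorem order_prod_X (I : Finset (Fin g)) :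
    ((I.card : ℕ) : ℕ∞) ≤ order (∏ i ∈ I, (X i : MvPowerSeries (Fin g) k)) := by
  classical
  rw [prod_X, order_monomial_of_ne_zero one_ne_zero, degree_ind]

/-- The squarefree monomials form a basis over `k[[u]]`. -/
theorem comb_bijective (hs : HasSubst u) (hu0 : ∀ i, constantCoeff (u i) = 0)
    (hu2 : ∀ i, ((2 : ℕ) : ℕ∞) ≤ order (u i))
    (hu3 : ∀ i, ((3 : ℕ) : ℕ∞) ≤ order (u i - X i ^ 2)) :
    Function.Bijective (comb (substAlgHom (R := k) hs)
      (fun i => (X i : MvPowerSeries (Fin g) k))) := by
  -- key estimate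
  have key : ∀ (n : ℕ) (c : Finset (Fin g) → MvPowerSeries (Fin g) k),
      (n : ℕ∞) ≤ order (comb φ0 (fun i => (X i : MvPowerSeries (Fin g) k)) c) →
      ((n + 1 : ℕ) : ℕ∞) ≤ order (comb (substAlgHom (R := k) hs)
        (fun i => (X i : MvPowerSeries (Fin g) k)) c
        - comb φ0 (fun i => (X i : MvPowerSeries (Fin g) k)) c) := by
    intro n c hc
    have hcI : ∀ I, (((n - I.card + 1) / 2 : ℕ) : ℕ∞) ≤ order (c I) := by
      intro I
      refine nat_le_order (fun a ha => ?_)
      have h1 : coeff (2 • a + ind I) (comb φ0 (fun i => (X i : MvPowerSeries (Fin g) k)) c) = 0 := by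
        refine coeff_of_lt_order (lt_of_lt_of_le ?_ hc)
        rw [map_add, map_nsmul, degree_ind, smul_eq_mul]
        exact_mod_cast (by omega : 2 * a.degree + I.card < n)
      rwa [coeff_comb0, oddp_comp, half_comp] at h1
    rw [comb, comb, ← Finset.sum_sub_distrib]
    refine le_sum_order _ _ (fun I _ => ?_)
    rw [← sub_mul]
    have h1 := order_diff hs hu0 hu2 hu3 _ (c I) (hcI I)
    have h2 := le_mul_order h1 (order_prod_X (k := k) I)
    refine le_trans ?_ h2
    exact_mod_cast (by omega : n + 1 ≤ 2 * ((n - I.card + 1) / 2) + 1 + I.card)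
  have hzero : ∀ r : MvPowerSeries (Fin g) k, (∀ n : ℕ, (n : ℕ∞) ≤ order r) → r = 0 := by
    intro r hr
    rw [← order_eq_top_iff]
    by_contra hne
    obtain ⟨n, hn⟩ := ENat.ne_top_iff_exists.1 hne
    have := hr (n + 1)
    rw [← hn] at this
    have h7 : n + 1 ≤ n := by exact_mod_cast this
    omega
  constructor
  · have hinj : Function.Injective (combLin (substAlgHom (R := k) hs)
        (fun i => (X i : MvPowerSeries (Fin g) k))) := by
      rw [← LinearMap.ker_eq_bot, LinearMap.ker_eq_bot']
      intro c hc
      have hc' : comb (substAlgHom (R := k) hs) (fun i => (X i : MvPowerSeries (Fin g) k)) c = 0 := hc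
      have h0 : comb φ0 (fun i => (X i : MvPowerSeries (Fin g) k)) c = 0 := by
        refine hzero _ (fun n => ?_)
        induction n with
        | zero => simp
        | succ n ih =>
          have := key n c ih
          rwa [hc', zero_sub, order_neg] at this
      refine comb0_bijective.1 ?_
      rw [h0, comb]
      symm
      refine Finset.sum_eq_zero (fun I _ => ?_)
      rw [Pi.zero_apply, map_zero, zero_mul]
    exact hinj
  · intro f
    let e : (Finset (Fin g) → MvPowerSeries (Fin g) k) ≃ₗ[k] MvPowerSeries (Fin g) k :=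
      coordE (φ0 (k := k) (g := g)) (fun i => (X i : MvPowerSeries (Fin g) k)) comb0_bijective
    let h : MvPowerSeries (Fin g) k →ₗ[k] MvPowerSeries (Fin g) k :=
      LinearMap.id - (combLin (substAlgHom (R := k) hs)
        (fun i => (X i : MvPowerSeries (Fin g) k))).comp e.symm.toLinearMap
    have hh : ∀ (n : ℕ) r, (n : ℕ∞) ≤ order r → ((n + 1 : ℕ) : ℕ∞) ≤ order (h r) := by
      intro n r hr
      have h1 : comb φ0 (fun i => (X i : MvPowerSeries (Fin g) k)) (e.symm r) = r :=
        e.apply_symm_apply r
      have h2 : h r = -(comb (substAlgHom (R := k) hs)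
        (fun i => (X i : MvPowerSeries (Fin g) k)) (e.symm r)
        - comb φ0 (fun i => (X i : MvPowerSeries (Fin g) k)) (e.symm r)) := by
        rw [h1]
        change r - comb (substAlgHom (R := k) hs) (fun i => (X i : MvPowerSeries (Fin g) k))
          (e.symm r) = _
        ring
      rw [h2, order_neg]
      exact key n _ (by rw [h1]; exact hr)
    obtain ⟨s, hs'⟩ := surj_of_contract h hh f
    refine ⟨e.symm s, ?_⟩
    rw [← hs']
    change _ = s - (s - comb (substAlgHom (R := k) hs)
      (fun i => (X i : MvPowerSeries (Fin g) k)) (e.symm s))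
    ring

end perturb

end Q43.KM
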