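import Mathlib

/-! # A dimension bound for the homology of a Koszul-like differential -/

universe u v

namespace Q43.KM

open RingTheory.Sequence

variable {k : Type u} {R : Type v} [Field k] [CommRing R] [Algebra k R]

/-- The element `a` commutes with the differential `T`, and multiplication by `a` is null-homotopic
through multiplication operators. -/
def Good (T : R →ₗ[k] R) (a : R) : Prop :=
  (∀ r, T (a * r) = a * T r) ∧ ∃ x x' : R, ∀ r, a * r = T (x * r) + x' * T r

theorem ofList_stable (T : R →ₗ[k] R) (l : List R) (hl : ∀ a ∈ l, Good T a) (n : R)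
    (hn : n ∈ Ideal.ofList l) : T n ∈ Ideal.ofList l := by
  suffices h : ∀ c : R, T (c * n) ∈ Ideal.ofList l by simpa using h 1
  induction hn using Submodule.span_induction with
  | mem x hx =>
    intro c
    rw [mul_comm, (hl x hx).1 c]
    exact Ideal.mul_mem_right _ _ (Ideal.subset_span hx)
  | zero => intro c; rw [mul_zero, map_zero]; exact Submodule.zero_mem _
  | add x y _ _ hx hy =>
    intro c; rw [mul_add, map_add]; exact Submodule.add_mem _ (hx c) (hy c)
  | smul d x _ hx => intro c; rw [smul_eq_mul, ← mul_assoc]; exact hx (c * d)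

/-- One step: passing to the quotient by one more element doubles the homology. -/
theorem hom_step (T : R →ₗ[k] R) (hTT : ∀ r, T (T r) = 0) (N : Ideal R)
    (hTN : ∀ n ∈ N, T n ∈ N) (a : R) (ha : Good T a) (hreg : ∀ m, a * m ∈ N → m ∈ N)
    (V : Submodule k R) [FiniteDimensional k V] (hV : ∀ v ∈ V, T v ∈ N)
    (hdisj : ∀ v ∈ V, (∃ r, ∃ n ∈ N, v = T r + n) → v = 0) :
    ∃ V' : Submodule k R, FiniteDimensional k V' ∧
      Module.finrank k V' = 2 * Module.finrank k V ∧
      (∀ v ∈ V', T v ∈ N ⊔ Ideal.span {a}) ∧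
      (∀ v ∈ V', (∃ r, ∃ n ∈ N ⊔ Ideal.span {a}, v = T r + n) → v = 0) := by
  obtain ⟨hcomm, x, x', hx⟩ := ha
  -- the map (f, z) ↦ f + x z
  let L : (V × V) →ₗ[k] R :=
    LinearMap.coprod V.subtype ((LinearMap.mulLeft k x).comp V.subtype)
  have hL : ∀ p : V × V, L p = (p.1 : R) + x * (p.2 : R) := by
    intro p; rfl
  -- key
  have key : ∀ p : V × V, (∃ r, ∃ n ∈ N ⊔ Ideal.span {a}, L p = T r + n) → p = 0 := by
    rintro ⟨f, z⟩ ⟨r, n, hn, h⟩
    rw [hL] at h
    simp only at h
    obtain ⟨n1, hn1, n2, hn2, rfl⟩ := Submodule.mem_sup.1 hn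
    obtain ⟨c, rfl⟩ := Ideal.mem_span_singleton'.1 hn2
    -- apply T
    have hT : T (f : R) + T (x * (z : R)) = T n1 + a * T c := by
      have := congrArg T h
      rw [map_add, map_add, map_add, hTT, zero_add, mul_comm c a, hcomm] at this
      exact this
    have hxz := hx (z : R)
    have h1 : a * ((z : R) - T c) ∈ N := by
      have : a * ((z : R) - T c) = T n1 - T (f : R) + x' * T (z : R) := by
        rw [mul_sub, hxz]
        linear_combination hT
      rw [this]
      exact N.add_mem (N.sub_mem (hTN _ hn1) (hV _ f.2)) (N.mul_mem_left _ (hV _ z.2))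
    have h2 := hreg _ h1
    have hz : (z : R) = 0 := hdisj _ z.2 ⟨c, _, h2, by ring⟩
    rw [hz, mul_zero, add_zero] at h
    -- f = T r + n1 + c a
    have h3 : a * T c ∈ N := by
      have : a * T c = T (f : R) - T n1 := by
        rw [hz, mul_zero, map_zero, add_zero] at hT
        rw [hT]; ring
      rw [this]
      exact N.sub_mem (hV _ f.2) (hTN _ hn1)
    have h4 := hreg _ h3
    have hxc := hx c
    have hf : (f : R) = 0 := by
      refine hdisj _ f.2 ⟨r + x * c, n1 + x' * T c, N.add_mem hn1 (N.mul_mem_left _ h4), ?_⟩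
      rw [h, map_add, mul_comm c a, hxc]
      ring
    ext
    · exact hf
    · exact hz
  have hinj : Function.Injective L := by
    rw [← LinearMap.ker_eq_bot, LinearMap.ker_eq_bot']
    intro p hp
    exact key p ⟨0, 0, Submodule.zero_mem _, by rw [hp, map_zero, add_zero]⟩
  refine ⟨LinearMap.range L, inferInstance, ?_, ?_, ?_⟩
  · rw [LinearMap.finrank_range_of_inj hinj, Module.finrank_prod, two_mul]
  · rintro _ ⟨p, rfl⟩
    rw [hL, map_add]
    have h5 : T (x * (p.2 : R)) = a * (p.2 : R) - x' * T (p.2 : R) := by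
      rw [hx]; ring
    rw [h5]
    refine Submodule.add_mem _ (Ideal.mem_sup_left (hV _ p.1.2)) (Submodule.sub_mem _
      (Ideal.mem_sup_right (Ideal.mul_mem_right _ _ (Ideal.mem_span_singleton_self a)))
      (Ideal.mem_sup_left (N.mul_mem_left _ (hV _ p.2.2))))
  · rintro _ ⟨p, rfl⟩ h
    rw [key p h, map_zero]

theorem hom_list (T : R →ₗ[k] R) (hTT : ∀ r, T (T r) = 0) (V : Submodule k R)
    [FiniteDimensional k V] (hV : ∀ v ∈ V, T v = 0)
    (hdisj : ∀ v ∈ V, (∃ r, v = T r) → v = 0) :
    ∀ (l : List R) (_ : ∀ a ∈ l, Good T a) (_ : IsWeaklyRegular R l),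
    ∃ V' : Submodule k R, FiniteDimensional k V' ∧
      Module.finrank k V' = 2 ^ l.length * Module.finrank k V ∧
      (∀ v ∈ V', T v ∈ Ideal.ofList l) ∧
      (∀ v ∈ V', (∃ r, ∃ n ∈ Ideal.ofList l, v = T r + n) → v = 0) := by
  intro l
  induction l using List.reverseRecOn with
  | nil =>
    intro _ _
    refine ⟨V, inferInstance, by simp, fun v hv => by rw [hV v hv]; exact Submodule.zero_mem _, ?_⟩
    rintro v hv ⟨r, n, hn, h⟩
    rw [Ideal.ofList_nil, Ideal.mem_bot] at hn
    exact hdisj v hv ⟨r, by rw [h, hn, add_zero]⟩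
  | append_singleton l a ih =>
    intro hl hreg
    rw [isWeaklyRegular_append_iff, isWeaklyRegular_singleton_iff] at hreg
    obtain ⟨V', hfin, hdim, hV', hdisj'⟩ := ih (fun b hb => hl b (by simp [hb])) hreg.1
    have hr : ∀ m, a * m ∈ Ideal.ofList l → m ∈ Ideal.ofList l := by
      intro m hm
      have h2 := (isSMulRegular_quotient_iff_mem_of_smul_mem _ a).1 hreg.2 m
      rw [smul_eq_mul, smul_eq_mul, Ideal.mul_top] at h2
      exact h2 hm
    have hT := ofList_stable T l (fun b hb => hl b (by simp [hb]))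
    obtain ⟨V2, hfin2, hdim2, hV2, hdisj2⟩ := hom_step T hTT (Ideal.ofList l) hT a
      (hl a (by simp)) hr V' hV' hdisj'
    have hof : Ideal.ofList (l ++ [a]) = Ideal.ofList l ⊔ Ideal.span {a} := by
      rw [Ideal.ofList_append, Ideal.ofList_singleton]
    rw [hof]
    refine ⟨V2, hfin2, ?_, hV2, hdisj2⟩
    rw [hdim2, hdim, List.length_append, List.length_singleton, pow_succ]
    ring

/-- The dimension bound: a finite dimensional space of cycles meeting the boundaries trivially
has dimension at most `2 ^ (- length l)` times the colength of the ideal generated by `l`. -/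
theorem hom_bound (T : R →ₗ[k] R) (hTT : ∀ r, T (T r) = 0) (l : List R)
    (hl : ∀ a ∈ l, Good T a) (hreg : IsWeaklyRegular R l)
    (hfin : FiniteDimensional k (R ⧸ Ideal.ofList l)) (V : Submodule k R)
    [FiniteDimensional k V] (hV : ∀ v ∈ V, T v = 0) (hdisj : ∀ v ∈ V, (∃ r, v = T r) → v = 0) :
    2 ^ l.length * Module.finrank k V ≤ Module.finrank k (R ⧸ Ideal.ofList l) := by
  obtain ⟨V', hfin', hdim, -, hd⟩ := hom_list T hTT V hV hdisj l hl hreg
  rw [← hdim]
  let q : V' →ₗ[k] (R ⧸ Ideal.ofList l) :=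
    ((Ideal.Quotient.mkₐ k (Ideal.ofList l)).toLinearMap).comp V'.subtype
  refine LinearMap.finrank_le_finrank_of_injective (f := q) ?_
  rw [← LinearMap.ker_eq_bot, LinearMap.ker_eq_bot']
  rintro ⟨v, hv⟩ h
  have h1 : v ∈ Ideal.ofList l := Ideal.Quotient.eq_zero_iff_mem.1 h
  have h2 := hd v hv ⟨0, v, h1, by rw [map_zero, zero_add]⟩
  exact Subtype.ext h2

end Q43.KM
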