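import Pool.Agent.Q43.KM.Vars
import Pool.Agent.Q43.KM.Hom

/-! # Coordinates over a power series subring -/

universe u v

namespace Q43.KM

open MvPowerSeries

variable {k : Type u} [Field k] {g : ℕ} {R : Type v} [CommRing R] [Algebra k R]

/-- The sum `∑_I φ(c_I) ∏_{i ∈ I} x_i`. -/
noncomputable def comb (φ : MvPowerSeries (Fin g) k →ₐ[k] R) (x : Fin g → R)
    (c : Finset (Fin g) → MvPowerSeries (Fin g) k) : R :=
  ∑ I, φ (c I) * ∏ i ∈ I, x i

/-- `comb` as a linear map over the base field. -/
noncomputable def combLin (φ : MvPowerSeries (Fin g) k →ₐ[k] R) (x : Fin g → R) :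
    (Finset (Fin g) → MvPowerSeries (Fin g) k) →ₗ[k] R where
  toFun := comb φ x
  map_add' c d := by
    simp only [comb, Pi.add_apply, map_add, add_mul, Finset.sum_add_distrib]
  map_smul' a c := by
    simp only [comb, Pi.smul_apply, map_smul, smul_mul_assoc, RingHom.id_apply, Finset.smul_sum]

/-- The coordinate equivalence. -/
noncomputable def coordE (φ : MvPowerSeries (Fin g) k →ₐ[k] R) (x : Fin g → R)
    (hb : Function.Bijective (comb φ x)) :
    (Finset (Fin g) → MvPowerSeries (Fin g) k) ≃ₗ[k] R :=
  LinearEquiv.ofBijective (combLin φ x) hb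

/-- The coordinates. -/
noncomputable def coord (φ : MvPowerSeries (Fin g) k →ₐ[k] R) (x : Fin g → R)
    (hb : Function.Bijective (comb φ x)) :
    R →ₗ[k] (Finset (Fin g) → MvPowerSeries (Fin g) k) :=
  (coordE φ x hb).symm.toLinearMap

section

variable (φ : MvPowerSeries (Fin g) k →ₐ[k] R) (x : Fin g → R)
    (hb : Function.Bijective (comb φ x))

theorem comb_coord (r : R) : comb φ x (coord φ x hb r) = r :=
  (coordE φ x hb).apply_symm_apply r

theorem coord_comb (c : Finset (Fin g) → MvPowerSeries (Fin g) k) :
    coord φ x hb (comb φ x c) = c :=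
  (coordE φ x hb).symm_apply_apply c

theorem comb_smul (p : MvPowerSeries (Fin g) k) (c : Finset (Fin g) → MvPowerSeries (Fin g) k) :
    comb φ x (fun I => p * c I) = φ p * comb φ x c := by
  simp only [comb, map_mul, Finset.mul_sum, mul_assoc]

theorem coord_mul (p : MvPowerSeries (Fin g) k) (r : R) (I : Finset (Fin g)) :
    coord φ x hb (φ p * r) I = p * coord φ x hb r I := by
  have h : φ p * r = comb φ x (fun I => p * coord φ x hb r I) := by
    rw [comb_smul, comb_coord]
  rw [h, coord_comb]

theorem comb_single (I : Finset (Fin g)) (p : MvPowerSeries (Fin g) k) :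
    comb φ x (Pi.single I p) = φ p * ∏ i ∈ I, x i := by
  classical
  rw [comb, Finset.sum_eq_single I]
  · rw [Pi.single_eq_same]
  · intro J _ hJ
    rw [Pi.single_eq_of_ne hJ, map_zero, zero_mul]
  · intro h; exact absurd (Finset.mem_univ I) h

theorem coord_mono (I : Finset (Fin g)) :
    coord φ x hb (∏ i ∈ I, x i) = Pi.single I 1 := by
  have h : (∏ i ∈ I, x i) = comb φ x (Pi.single I 1) := by
    rw [comb_single, map_one, one_mul]
  rw [h, coord_comb]

theorem coord_phi (p : MvPowerSeries (Fin g) k) :
    coord φ x hb (φ p) = Pi.single ∅ p := by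
  have h : φ p = comb φ x (Pi.single ∅ p) := by
    rw [comb_single, Finset.prod_empty, mul_one]
  rw [h, coord_comb]

include x hb in
theorem phi_injective : Function.Injective φ := by
  intro p q h
  have h1 := congrArg (fun r => coord φ x hb r ∅) h
  simp only [coord_phi, Pi.single_eq_same] at h1
  exact h1

/-- Membership in the extension of an ideal, in coordinates. -/
theorem mem_map_iff (A : Ideal (MvPowerSeries (Fin g) k)) (r : R) :
    r ∈ A.map φ ↔ ∀ I, coord φ x hb r I ∈ A := by
  constructor
  · intro h
    induction h using Submodule.span_induction with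
    | mem y hy =>
      obtain ⟨p, hp, rfl⟩ := hy
      intro I
      rw [show (φ : MvPowerSeries (Fin g) k → R) p = φ p * 1 by rw [mul_one], coord_mul]
      exact Ideal.mul_mem_right _ _ hp
    | zero => intro I; rw [map_zero]; exact A.zero_mem
    | add y z _ _ hy hz => intro I; rw [map_add]; exact A.add_mem (hy I) (hz I)
    | smul s y _ hy =>
      intro I
      have h1 : s • y = ∑ J, φ (coord φ x hb y J) * ((∏ i ∈ J, x i) * s) := by
        rw [smul_eq_mul, mul_comm s y]
        conv_lhs => rw [← comb_coord φ x hb y, comb, Finset.sum_mul]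
        exact Finset.sum_congr rfl (fun J _ => by ring)
      rw [h1, map_sum, Finset.sum_apply]
      refine Ideal.sum_mem _ (fun J _ => ?_)
      rw [coord_mul]
      exact Ideal.mul_mem_right _ _ (hy J)
  · intro h
    rw [← comb_coord φ x hb r, comb]
    refine Ideal.sum_mem _ (fun J _ => ?_)
    exact Ideal.mul_mem_right _ _ (Ideal.mem_map_of_mem _ (h J))

/-- Colengths in coordinates. -/
noncomputable def quotEquiv (A : Ideal (MvPowerSeries (Fin g) k)) :
    (R ⧸ A.map φ) ≃ₗ[k] (Finset (Fin g) → (MvPowerSeries (Fin g) k ⧸ A)) := by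
  let q : R →ₗ[k] (Finset (Fin g) → (MvPowerSeries (Fin g) k ⧸ A)) :=
    (LinearMap.pi (fun I => ((Ideal.Quotient.mkₐ k A).toLinearMap).comp
      (LinearMap.proj I))).comp (coord φ x hb)
  have hq : Function.Surjective q := by
    intro f
    choose c hc using fun I => Ideal.Quotient.mk_surjective (f I)
    refine ⟨comb φ x c, ?_⟩
    funext I
    simp only [q, LinearMap.comp_apply, coord_comb, LinearMap.pi_apply, LinearMap.proj_apply]
    exact hc I
  have hk : LinearMap.ker q = (A.map φ).restrictScalars k := by
    ext r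
    rw [LinearMap.mem_ker, Submodule.restrictScalars_mem, mem_map_iff φ x hb]
    constructor
    · intro h I
      have := congrFun h I
      exact Ideal.Quotient.eq_zero_iff_mem.1 this
    · intro h
      funext I
      exact Ideal.Quotient.eq_zero_iff_mem.2 (h I)
  exact (Submodule.Quotient.restrictScalarsEquiv k (A.map φ)).symm.trans
    ((Submodule.quotEquivOfEq _ _ hk.symm).trans (q.quotKerEquivOfSurjective hq))

end

end Q43.KM
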