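import Pool.Agent.Q43.KM.Basis

/-! # Differences of substitutions and doubling in characteristic two -/

universe u v w

namespace Q43.KM

open MvPowerSeries IsLocalRing

variable {k : Type u} [Field k]

/-- Krull: an ideal of a Noetherian local ring is closed. -/
theorem mem_of_forall_pow {R : Type w} [CommRing R] [IsLocalRing R] [IsNoetherianRing R]
    (I : Ideal R) (x : R) (h : ∀ n : ℕ, x ∈ I ⊔ maximalIdeal R ^ n) : x ∈ I := by
  by_cases hI : I = ⊤
  · rw [hI]; trivial
  have hnt : Nontrivial (R ⧸ I) := Ideal.Quotient.nontrivial_iff.2 hI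
  have hloc : IsLocalRing (R ⧸ I) := IsLocalRing.of_surjective' _ Ideal.Quotient.mk_surjective
  rw [← Ideal.Quotient.eq_zero_iff_mem]
  have h1 : Ideal.Quotient.mk I x ∈ (⨅ n : ℕ, (maximalIdeal (R ⧸ I)) ^ n) := by
    rw [Ideal.mem_iInf]
    intro n
    obtain ⟨y, hy, z, hz, rfl⟩ := Submodule.mem_sup.1 (h n)
    rw [map_add, Ideal.Quotient.eq_zero_iff_mem.2 hy, zero_add]
    have h2 : (maximalIdeal R).map (Ideal.Quotient.mk I) ≤ maximalIdeal (R ⧸ I) := by
      rw [Ideal.map_le_iff_le_comap]
      intro r hr
      rw [Ideal.mem_comap, mem_maximalIdeal, mem_nonunits_iff]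
      intro hu
      obtain ⟨s, hs⟩ := hu.exists_right_inv
      obtain ⟨s, rfl⟩ := Ideal.Quotient.mk_surjective s
      rw [← map_mul, ← map_one (Ideal.Quotient.mk I), Ideal.Quotient.eq] at hs
      have h3 := (maximalIdeal R).sub_mem ((maximalIdeal R).mul_mem_right s hr)
        (IsLocalRing.le_maximalIdeal hI hs)
      rw [sub_sub_cancel] at h3
      exact (Ideal.ne_top_iff_one _).1 (Ideal.IsPrime.ne_top inferInstance) h3
    have h4 := Ideal.mem_map_of_mem (Ideal.Quotient.mk I) hz
    rw [Ideal.map_pow] at h4
    exact Ideal.pow_right_mono h2 n h4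
  rw [Ideal.iInf_pow_eq_bot_of_isLocalRing _ (Ideal.IsPrime.ne_top inferInstance)] at h1
  exact h1

/-- Two algebra homomorphisms from a power series ring which agree on the variables modulo an
ideal agree modulo the ideal. -/
theorem hom_diff {σ : Type v} [Fintype σ] {R : Type w} [CommRing R] [Algebra k R] [IsLocalRing R]
    [IsNoetherianRing R] (φa φb : MvPowerSeries σ k →ₐ[k] R) (I : Ideal R)
    (h : ∀ s, φa (X s) - φb (X s) ∈ I) (hb : ∀ s, φb (X s) ∈ maximalIdeal R)
    (f : MvPowerSeries σ k) : φa f - φb f ∈ I := by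
  classical
  apply mem_of_forall_pow
  intro n
  induction n generalizing f with
  | zero => simp
  | succ n ih =>
    have h1 : f - C (constantCoeff f) ∈
        Ideal.span (Set.range (fun s : σ => (X s : MvPowerSeries σ k))) := by
      have h2 := mem_span_X_iff (k := k) (Finset.univ : Finset σ) (f - C (constantCoeff f))
      rw [Finset.coe_univ, Set.image_univ] at h2
      rw [h2]
      intro m hm
      have : m = 0 := by
        ext i; exact hm i (Finset.mem_univ i)
      rw [this]
      change constantCoeff (f - C (constantCoeff f)) = 0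
      rw [map_sub, constantCoeff_C, sub_self]
    obtain ⟨q, hq⟩ := (Submodule.mem_span_range_iff_exists_fun _).1 h1
    have h3 : f = ∑ s, q s * X s + C (constantCoeff f) := by
      have : ∑ s, q s * X s = ∑ s, q s • (X s : MvPowerSeries σ k) := rfl
      rw [this, hq]; ring
    have h4 : ∀ ψ : MvPowerSeries σ k →ₐ[k] R, ψ f = ∑ s, ψ (q s) * ψ (X s)
        + algebraMap k R (constantCoeff f) := by
      intro ψ
      conv_lhs => rw [h3]
      rw [map_add, map_sum]
      congr 1
      · exact Finset.sum_congr rfl (fun s _ => map_mul _ _ _)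
      · change ψ (algebraMap k _ _) = _
        rw [AlgHom.commutes]
    have h5 : φa f - φb f = ∑ s, (φa (q s) * (φa (X s) - φb (X s))
        + (φa (q s) - φb (q s)) * φb (X s)) := by
      rw [h4 φa, h4 φb, add_sub_add_right_eq_sub, ← Finset.sum_sub_distrib]
      exact Finset.sum_congr rfl (fun s _ => by ring)
    rw [h5]
    refine Ideal.sum_mem _ (fun s _ => Ideal.add_mem _ ?_ ?_)
    · exact Ideal.mem_sup_left (Ideal.mul_mem_left _ _ (h s))
    · obtain ⟨y, hy, z, hz, hyz⟩ := Submodule.mem_sup.1 (ih (q s))
      rw [← hyz, add_mul]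
      refine Ideal.add_mem _ (Ideal.mem_sup_left (Ideal.mul_mem_right _ _ hy))
        (Ideal.mem_sup_right ?_)
      rw [pow_succ]
      exact Ideal.mul_mem_mul hz (hb s)

/-- The doubling of a symmetric power series in characteristic two is a series in the squares. -/
theorem double_eq_expand [CharP k 2] {g : ℕ} (f : MvPowerSeries (Fin g ⊕ Fin g) k)
    (hf : subst (Sum.elim
      (fun j => (X (Sum.inr j) : MvPowerSeries (Fin g ⊕ Fin g) k))
      (fun j => (X (Sum.inl j) : MvPowerSeries (Fin g ⊕ Fin g) k))) f = f) :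
    subst (Sum.elim (fun j => (X j : MvPowerSeries (Fin g) k)) (fun j => X j)) f
      = expand 2 two_ne_zero (fun a => coeff (Finsupp.sumElim a a) f) := by
  classical
  -- coefficients of `f` are symmetric
  have hsw : ∀ y : Fin g ⊕ Fin g →₀ ℕ, coeff (y.mapDomain Sum.swap) f = coeff y f := by
    intro y
    have h1 : rename (Equiv.sumComm (Fin g) (Fin g)).toEmbedding f = f := by
      rw [rename_eq_subst]
      conv_rhs => rw [← hf]
      congr 1
      funext s
      rcases s with j | j <;> rfl
    have h2 := coeff_embDomain_rename (Equiv.sumComm (Fin g) (Fin g)).toEmbedding f y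
    rw [h1, Finsupp.embDomain_eq_mapDomain] at h2
    exact h2
  have hren : subst (Sum.elim (fun j => (X j : MvPowerSeries (Fin g) k)) (fun j => X j)) f
      = rename (Sum.elim id id : Fin g ⊕ Fin g → Fin g) f := by
    rw [rename_eq_subst]
    congr 1
    funext s
    rcases s with j | j <;> rfl
  rw [hren]
  ext m
  rw [coeff_rename]
  set S := (Filter.TendstoCofinite.finite_preimage_singleton
    (Finsupp.mapDomain (Sum.elim id id : Fin g ⊕ Fin g → Fin g)) m).toFinset with hS
  have hmem : ∀ y, y ∈ S ↔ y.mapDomain (Sum.elim id id : Fin g ⊕ Fin g → Fin g) = m := by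
    intro y
    rw [hS, Set.Finite.mem_toFinset]
    rfl
  have hswsw : ∀ y : Fin g ⊕ Fin g →₀ ℕ, (y.mapDomain Sum.swap).mapDomain Sum.swap = y := by
    intro y
    rw [← Finsupp.mapDomain_comp]
    have : (Sum.swap ∘ Sum.swap : Fin g ⊕ Fin g → Fin g ⊕ Fin g) = id := by
      funext s; rcases s with j | j <;> rfl
    rw [this, Finsupp.mapDomain_id]
  have hswmem : ∀ y, y ∈ S → y.mapDomain Sum.swap ∈ S := by
    intro y hy
    rw [hmem] at hy ⊢
    rw [← Finsupp.mapDomain_comp, ← hy]
    congr 1
    funext s; rcases s with j | j <;> rfl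
  have hvan : ∑ y ∈ S.filter (fun y => ¬ (y.mapDomain Sum.swap = y)), coeff y f = 0 := by
    refine Finset.sum_involution (fun y _ => y.mapDomain Sum.swap) ?_ ?_ ?_ ?_
    · intro y _
      rw [hsw, CharTwo.add_self_eq_zero]
    · intro y hy _
      exact (Finset.mem_filter.1 hy).2
    · intro y hy
      rw [Finset.mem_filter] at hy ⊢
      refine ⟨hswmem y hy.1, fun h => hy.2 ?_⟩
      rw [hswsw] at h
      exact h.symm
    · intro y _
      exact hswsw y
  rw [← Finset.sum_filter_add_sum_filter_not S (fun y => y.mapDomain Sum.swap = y), hvan, add_zero]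
  -- values of mapDomain
  have hval : ∀ (y : Fin g ⊕ Fin g →₀ ℕ) (j : Fin g),
      y.mapDomain (Sum.elim id id : Fin g ⊕ Fin g → Fin g) j = y (Sum.inl j) + y (Sum.inr j) := by
    intro y j
    rw [Finsupp.mapDomain, Finsupp.sum_apply, Finsupp.sum_fintype _ _ (by intro i; simp)]
    rw [Fintype.sum_sum_type]
    simp only [Sum.elim_inl, Sum.elim_inr, id, Finsupp.single_apply]
    rw [Finset.sum_ite_eq', Finset.sum_ite_eq', if_pos (Finset.mem_univ _),
      if_pos (Finset.mem_univ _)]
  have hvalsw : ∀ (y : Fin g ⊕ Fin g →₀ ℕ) (s : Fin g ⊕ Fin g),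
      y.mapDomain Sum.swap s = y (Sum.swap s) := by
    intro y s
    have hinj : Function.Injective (Sum.swap : Fin g ⊕ Fin g → Fin g ⊕ Fin g) :=
      (Equiv.sumComm (Fin g) (Fin g)).injective
    have h1 := Finsupp.mapDomain_apply hinj y (Sum.swap s)
    rwa [Sum.swap_swap] at h1
  by_cases hm : ∀ i, 2 ∣ m i
  · -- even exponent
    set a : Fin g →₀ ℕ := half m with ha
    have hma : m = 2 • a := by
      ext i
      rw [ha, Finsupp.smul_apply, half_apply, smul_eq_mul]
      obtain ⟨c, hc⟩ := hm i
      omega
    have hfil : S.filter (fun y => y.mapDomain Sum.swap = y) = {Finsupp.sumElim a a} := by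
      ext y
      rw [Finset.mem_filter, Finset.mem_singleton, hmem]
      constructor
      · rintro ⟨h1, h2⟩
        have h3 : ∀ j, y (Sum.inl j) = y (Sum.inr j) := by
          intro j
          have := DFunLike.congr_fun h2 (Sum.inr j)
          rwa [hvalsw] at this
        have h4 : ∀ j, y (Sum.inl j) = a j := by
          intro j
          have h5 := hval y j
          rw [h1, hma, Finsupp.smul_apply, smul_eq_mul, ← h3 j] at h5
          omega
        ext s
        rcases s with j | j
        · rw [Finsupp.sumElim_inl]; exact h4 j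
        · rw [Finsupp.sumElim_inr, ← h3 j]; exact h4 j
      · rintro rfl
        constructor
        · ext j
          rw [hval, Finsupp.sumElim_inl, Finsupp.sumElim_inr, hma, Finsupp.smul_apply, smul_eq_mul]
          ring
        · ext s
          rw [hvalsw]
          rcases s with j | j
          · rw [Sum.swap_inl, Finsupp.sumElim_inl, Finsupp.sumElim_inr]
          · rw [Sum.swap_inr, Finsupp.sumElim_inl, Finsupp.sumElim_inr]
    rw [hfil, Finset.sum_singleton, hma, coeff_expand_smul]
    rfl
  · simp only [not_forall] at hm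
    obtain ⟨i, hi⟩ := hm
    rw [coeff_expand_of_not_dvd 2 two_ne_zero _ hi]
    refine Finset.sum_eq_zero (fun y hy => ?_)
    exfalso
    rw [Finset.mem_filter, hmem] at hy
    obtain ⟨h1, h2⟩ := hy
    have h3 : y (Sum.inl i) = y (Sum.inr i) := by
      have := DFunLike.congr_fun h2 (Sum.inr i)
      rwa [hvalsw] at this
    have h5 := hval y i
    rw [h1, h3] at h5
    exact hi ⟨y (Sum.inr i), by omega⟩

end Q43.KM
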