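import Pool.Agent.Q43.KM.Abs

/-! # The embedding dimension of the ring of invariants -/

universe u

namespace Q43.KM

open MvPowerSeries IsLocalRing RingTheory.Sequence

/-- The ring of invariants of an endomorphism. -/
def Inv {k : Type u} [Field k] {R : Type u} [CommRing R] [Algebra k R] (ι : R →ₐ[k] R) :
    Subalgebra k R := AlgHom.equalizer ι (AlgHom.id k R)

theorem mem_Inv {k : Type u} [Field k] {R : Type u} [CommRing R] [Algebra k R] (ι : R →ₐ[k] R)
    (r : R) : r ∈ Inv ι ↔ ι r = r := Iff.rfl

/-- The ring of invariants of an endomorphism of a local ring is local. -/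
theorem isLocalRing_Inv {k : Type u} [Field k] {R : Type u} [CommRing R] [IsLocalRing R]
    [Algebra k R] (ι : R →ₐ[k] R) : IsLocalRing (Inv ι) := by
  have : IsLocalHom (algebraMap (Inv ι) R) := by
    refine ⟨fun s hs => ?_⟩
    obtain ⟨t, ht⟩ := hs.exists_right_inv
    change (s : R) * t = 1 at ht
    have h1 : (s : R) * ι t = 1 := by
      have := congrArg ι ht
      rw [map_mul, map_one, (mem_Inv ι s).1 s.2] at this
      exact this
    have h2 : ι t = t := by
      calc ι t = ι t * ((s : R) * t) := by rw [ht, mul_one]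
        _ = ((s : R) * ι t) * t := by ring
        _ = t := by rw [h1, one_mul]
    exact IsUnit.of_mul_eq_one ⟨t, h2⟩ (Subtype.ext ht)
  exact (algebraMap (Inv ι) R).domain_isLocalRing

theorem mem_maxIdeal_Inv {k : Type u} [Field k] {R : Type u} [CommRing R] [IsLocalRing R]
    [Algebra k R] (ι : R →ₐ[k] R) [IsLocalRing (Inv ι)] (s : Inv ι) :
    s ∈ maximalIdeal (Inv ι) ↔ (s : R) ∈ maximalIdeal R := by
  rw [mem_maximalIdeal, mem_maximalIdeal, mem_nonunits_iff, mem_nonunits_iff, not_iff_not]
  constructor
  · intro h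
    exact h.map (Inv ι).val
  · intro hs
    obtain ⟨t, ht⟩ := hs.exists_right_inv
    have h1 : (s : R) * ι t = 1 := by
      have := congrArg ι ht
      rw [map_mul, map_one, (mem_Inv ι s).1 s.2] at this
      exact this
    have h2 : ι t = t := by
      calc ι t = ι t * ((s : R) * t) := by rw [ht, mul_one]
        _ = ((s : R) * ι t) * t := by ring
        _ = t := by rw [h1, one_mul]
    exact IsUnit.of_mul_eq_one ⟨t, h2⟩ (Subtype.ext ht)

section power

variable {k : Type u} [Field k] {g : ℕ}

/-- The maximal ideal of the power series ring. -/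
noncomputable def mP (k : Type u) [Field k] (g : ℕ) : Ideal (MvPowerSeries (Fin g) k) :=
  RingHom.ker (constantCoeff (σ := Fin g) (R := k))

theorem mem_mP (p : MvPowerSeries (Fin g) k) : p ∈ mP k g ↔ constantCoeff p = 0 := Iff.rfl

theorem mP_eq : mP k g = Ideal.span (Set.range (fun i : Fin g => (X i : MvPowerSeries (Fin g) k))) := by
  ext p
  have h := mem_span_X_iff (k := k) (Finset.univ : Finset (Fin g)) p
  rw [Finset.coe_univ, Set.image_univ] at h
  rw [h, mem_mP]
  constructor
  · intro hp m hm
    have : m = 0 := by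
      ext i; exact hm i (Finset.mem_univ i)
    rw [this]
    exact hp
  · intro hp
    exact hp 0 (fun _ _ => rfl)

theorem sub_C_mem (p : MvPowerSeries (Fin g) k) : p - C (constantCoeff p) ∈ mP k g := by
  rw [mem_mP, map_sub, constantCoeff_C, sub_self]

/-- Linear approximation. -/
theorem exists_lin (p : MvPowerSeries (Fin g) k) (hp : p ∈ mP k g) :
    ∃ c : Fin g → k, p - ∑ i, C (c i) * X i ∈ (mP k g) ^ 2 := by
  rw [mP_eq] at hp
  obtain ⟨q, hq⟩ := (Submodule.mem_span_range_iff_exists_fun _).1 hp
  refine ⟨fun i => constantCoeff (q i), ?_⟩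
  rw [← hq, ← Finset.sum_sub_distrib]
  refine Ideal.sum_mem _ (fun i _ => ?_)
  rw [smul_eq_mul, ← sub_mul, pow_two]
  refine Ideal.mul_mem_mul (sub_C_mem _) ?_
  rw [mem_mP, constantCoeff_X]

theorem coeff_sq (p : MvPowerSeries (Fin g) k) (hp : p ∈ (mP k g) ^ 2) (i : Fin g) :
    coeff (Finsupp.single i 1) p = 0 := by
  classical
  rw [pow_two] at hp
  induction hp using Submodule.mul_induction_on' with
  | mem_mul_mem a ha b hb =>
    rw [coeff_mul]
    refine Finset.sum_eq_zero (fun m hm => ?_)
    rw [Finset.HasAntidiagonal.mem_antidiagonal] at hm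
    by_cases h1 : m.1 = 0
    · rw [h1, show coeff 0 a = 0 from ha, zero_mul]
    · by_cases h2 : m.2 = 0
      · rw [h2, show coeff 0 b = 0 from hb, mul_zero]
      · exfalso
        obtain ⟨j, hj⟩ := Finsupp.ne_iff.1 h1
        obtain ⟨l, hl⟩ := Finsupp.ne_iff.1 h2
        have hd := congrArg Finsupp.degree hm
        rw [map_add, Finsupp.degree_single] at hd
        have hd1 : m.1.degree ≠ 0 := fun h => h1 ((Finsupp.degree_eq_zero_iff _).1 h)
        have hd2 : m.2.degree ≠ 0 := fun h => h2 ((Finsupp.degree_eq_zero_iff _).1 h)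
        omega
  | add a _ b _ ha hb => rw [map_add, ha, hb, add_zero]

theorem lin_zero (c : Fin g → k) (h : ∑ i, C (c i) * X i ∈ (mP k g) ^ 2) : c = 0 := by
  classical
  funext i
  have h1 := coeff_sq _ h i
  rw [map_sum, Finset.sum_eq_single i] at h1
  · rw [coeff_C_mul, coeff_index_single_self_X, mul_one] at h1
    exact h1
  · intro j _ hj
    rw [coeff_C_mul, coeff_index_single_X, if_neg (Ne.symm hj), mul_zero]
  · intro h; exact absurd (Finset.mem_univ i) h

end power

end Q43.KM
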