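import Pool.Agent.Q43.KM.Emb

/-! # The embedding dimension of the ring of invariants, continued -/

universe u

namespace Q43.KM

open MvPowerSeries IsLocalRing RingTheory.Sequence

variable {k : Type u} [Field k] {g : ℕ} {R : Type u} [CommRing R] [Algebra k R]

namespace Datum

variable [IsLocalRing R] (D : Datum k g R)

/-- The residual coordinate functionals. -/
noncomputable def κ (I : Finset (Fin g)) : R →ₗ[k] k where
  toFun r := constantCoeff (coord D.φ D.x D.hb r I)
  map_add' r s := by rw [map_add, Pi.add_apply, map_add]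
  map_smul' c r := by
    rw [map_smul, Pi.smul_apply, RingHom.id_apply]
    exact constantCoeff_smul _ _

theorem κ_φ_mul (p : MvPowerSeries (Fin g) k) (r : R) (I : Finset (Fin g)) :
    D.κ I (D.φ p * r) = constantCoeff p * D.κ I r := by
  change constantCoeff (coord D.φ D.x D.hb (D.φ p * r) I) = _
  rw [coord_mul, map_mul]; rfl

theorem κ_mono (I J : Finset (Fin g)) :
    D.κ I (∏ i ∈ J, D.x i) = if I = J then 1 else 0 := by
  change constantCoeff (coord D.φ D.x D.hb (∏ i ∈ J, D.x i) I) = _
  rw [coord_mono, Pi.single_apply]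
  split_ifs
  · exact map_one _
  · exact map_zero _

theorem κ_φ (p : MvPowerSeries (Fin g) k) (I : Finset (Fin g)) (hI : I.Nonempty) :
    D.κ I (D.φ p) = 0 := by
  have h := D.κ_mono I ∅
  rw [Finset.prod_empty, if_neg hI.ne_empty] at h
  rw [← mul_one (D.φ p), κ_φ_mul, h, mul_zero]

/-- The extension of the maximal ideal of `P`. -/
noncomputable def K : Ideal R := (mP k g).map D.φ

theorem mem_K (r : R) : r ∈ D.K ↔ ∀ I, D.κ I r = 0 :=
  mem_map_iff D.φ D.x D.hb (mP k g) r

theorem J_le_K : D.J ≤ D.K := by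
  refine Ideal.map_mono ?_
  rw [W, Ideal.span_le]
  rintro _ ⟨i, rfl⟩
  exact D.hw i

theorem K_le : D.K ≤ maximalIdeal R := by
  rw [K, Ideal.map, Ideal.span_le]
  rintro _ ⟨p, hp, rfl⟩
  exact D.hφ p hp

theorem sub_κ_mem (r : R) :
    r - ∑ I, (algebraMap k R (D.κ I r)) * ∏ i ∈ I, D.x i ∈ D.K := by
  classical
  rw [mem_K]
  intro I
  rw [map_sub, map_sum, Finset.sum_eq_single I]
  · have h : (algebraMap k R (D.κ I r)) * ∏ i ∈ I, D.x i
        = (D.κ I r) • ∏ i ∈ I, D.x i := (Algebra.smul_def _ _).symm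
    rw [h, map_smul, κ_mono, if_pos rfl, smul_eq_mul, mul_one, sub_self]
  · intro J _ hJ
    have h : (algebraMap k R (D.κ J r)) * ∏ i ∈ J, D.x i
        = (D.κ J r) • ∏ i ∈ J, D.x i := (Algebra.smul_def _ _).symm
    rw [h, map_smul, κ_mono, if_neg (Ne.symm hJ), smul_zero]
  · intro h; exact absurd (Finset.mem_univ I) h

variable [CharP k 2] [IsNoetherianRing R]

omit [CharP k 2] in
/-- The `a_i` are minimal generators of `J`. -/
theorem indep_a (c : Fin g → k)
    (h : ∑ i, algebraMap k R (c i) * D.a i ∈ maximalIdeal R * D.J) : c = 0 := by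
  classical
  by_contra hne
  obtain ⟨i0, hi0⟩ := Function.ne_iff.1 hne
  have hci0 : c i0 ≠ 0 := hi0
  set l : List R := ((Finset.univ.erase i0).toList).map D.a with hl
  have hof : Ideal.ofList l = Ideal.span (D.a '' {j | j ≠ i0}) := by
    rw [Ideal.ofList]
    congr 1
    ext z
    simp [hl]
  have hperm : (List.ofFn D.a).Perm (l ++ [D.a i0]) := by
    have h1 : (List.finRange g).Perm ((Finset.univ.erase i0).toList ++ [i0]) := by
      rw [List.perm_ext_iff_of_nodup (List.nodup_finRange g)]
      · intro j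
        simp
        tauto
      · rw [List.nodup_append]
        refine ⟨Finset.nodup_toList _, List.nodup_singleton _, ?_⟩
        intro a ha b hb
        rw [Finset.mem_toList] at ha
        rw [List.mem_singleton] at hb
        rw [hb]
        exact Finset.ne_of_mem_erase ha
    have h2 := h1.map D.a
    rw [List.map_append, List.map_singleton] at h2
    rwa [List.ofFn_eq_map]
  have hmem : D.a i0 ∈ Ideal.ofList l := by
    have hle : D.J ≤ Ideal.ofList l := by
      refine Submodule.le_of_le_smul_of_le_jacobson_bot (I := maximalIdeal R) D.J_fg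
        (IsLocalRing.maximalIdeal_le_jacobson _) ?_
      conv_lhs => rw [← D.span_a]
      rw [Ideal.span_le]
      rintro _ ⟨j, rfl⟩
      by_cases hj : j = i0
      · subst hj
        rw [SetLike.mem_coe]
        have h3 : algebraMap k R (c j) * D.a j ∈ Ideal.ofList l ⊔ maximalIdeal R • D.J := by
          have h4 : algebraMap k R (c j) * D.a j = (∑ i, algebraMap k R (c i) * D.a i)
              - ∑ i ∈ Finset.univ.erase j, algebraMap k R (c i) * D.a i := by
            rw [← Finset.add_sum_erase Finset.univ _ (Finset.mem_univ j)]; ring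
          rw [h4]
          refine Submodule.sub_mem _ (Submodule.mem_sup_right h) (Submodule.mem_sup_left ?_)
          refine Ideal.sum_mem _ (fun i hi => Ideal.mul_mem_left _ _ ?_)
          rw [hof]
          exact Ideal.subset_span ⟨i, Finset.ne_of_mem_erase hi, rfl⟩
        have h5 : D.a j = algebraMap k R ((c j)⁻¹) * (algebraMap k R (c j) * D.a j) := by
          rw [← mul_assoc, ← map_mul, inv_mul_cancel₀ hci0, map_one, one_mul]
        rw [h5]
        exact Submodule.smul_mem _ (algebraMap k R ((c j)⁻¹)) h3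
      · refine Submodule.mem_sup_left ?_
        rw [hof]
        exact Ideal.subset_span ⟨j, hj, rfl⟩
    exact hle (D.a_mem i0)
  have hreg := IsLocalRing.isWeaklyRegular_of_perm_of_subset_maximalIdeal D.reg_a hperm
    (fun r hr => by
      obtain ⟨i, rfl⟩ := (List.mem_ofFn' D.a r).1 hr
      exact D.J_le (D.a_mem i))
  rw [isWeaklyRegular_append_iff, isWeaklyRegular_singleton_iff] at hreg
  have h2 := (isSMulRegular_quotient_iff_mem_of_smul_mem _ (D.a i0)).1 hreg.2 1
  rw [smul_eq_mul, smul_eq_mul, Ideal.mul_top, mul_one] at h2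
  have h1 : (1 : R) ∈ maximalIdeal R := by
    refine (show Ideal.ofList l ≤ maximalIdeal R from ?_) (h2 hmem)
    rw [hof, Ideal.span_le]
    rintro _ ⟨j, _, rfl⟩
    exact D.J_le (D.a_mem j)
  exact (Ideal.ne_top_iff_one _).1 (Ideal.IsPrime.ne_top inferInstance) h1

/-- If `T h` lies in `m J` then the linear coordinates of `h` vanish. -/
theorem κ_of_T (h : R) (hh : D.T h ∈ maximalIdeal R * D.J) (i : Fin g) : D.κ {i} h = 0 := by
  classical
  have key : ∑ i, algebraMap k R (D.κ {i} h) * D.a i ∈ maximalIdeal R * D.J := by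
    have h1 : D.T h = ∑ I, D.φ (coord D.φ D.x D.hb h I) * D.T (∏ i ∈ I, D.x i) := by
      rw [← D.T_comb, comb_coord]
    set F : Finset (Fin g) → R := fun I => D.φ (coord D.φ D.x D.hb h I) * D.T (∏ i ∈ I, D.x i)
      with hF
    set S1 : Finset (Finset (Fin g)) := Finset.univ.image (fun i : Fin g => ({i} : Finset (Fin g)))
      with hS1
    have h2 : ∑ I, F I = ∑ I ∈ S1, F I + ∑ I ∈ S1ᶜ, F I := (Finset.sum_add_sum_compl S1 F).symm
    have h3 : ∑ I ∈ S1ᶜ, F I ∈ maximalIdeal R * D.J := by
      refine Ideal.sum_mem _ (fun I hI => ?_)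
      rw [hF]
      by_cases hI0 : I = ∅
      · simp only [hI0, Finset.prod_empty]
        rw [D.T_of_ι (map_one _), mul_zero]
        exact Submodule.zero_mem _
      · have hcard : 2 ≤ I.card := by
          by_contra hcon
          have h4 : I.card = 1 := by
            have := Finset.card_pos.2 (Finset.nonempty_iff_ne_empty.2 hI0)
            omega
          obtain ⟨j, rfl⟩ := Finset.card_eq_one.1 h4
          rw [Finset.mem_compl] at hI
          exact hI (Finset.mem_image.2 ⟨j, Finset.mem_univ _, rfl⟩)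
        exact Ideal.mul_mem_left _ _ (D.T_mono_mem' I hcard)
    have h4 : ∑ I ∈ S1, F I = ∑ i, D.φ (coord D.φ D.x D.hb h {i}) * D.a i := by
      rw [hS1, Finset.sum_image (fun a _ b _ hab => Finset.singleton_injective hab)]
      refine Finset.sum_congr rfl (fun i _ => ?_)
      rw [hF]
      simp only [Finset.prod_singleton]
      rfl
    have h5 : ∑ i, D.φ (coord D.φ D.x D.hb h {i}) * D.a i ∈ maximalIdeal R * D.J := by
      rw [← h4]
      have : ∑ I ∈ S1, F I = D.T h - ∑ I ∈ S1ᶜ, F I := by rw [h1, h2]; ring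
      rw [this]
      exact Submodule.sub_mem _ hh h3
    have h6 : ∑ i, algebraMap k R (D.κ {i} h) * D.a i
        = ∑ i, D.φ (coord D.φ D.x D.hb h {i}) * D.a i
          - ∑ i, D.φ (coord D.φ D.x D.hb h {i} - C (constantCoeff (coord D.φ D.x D.hb h {i})))
            * D.a i := by
      rw [← Finset.sum_sub_distrib]
      refine Finset.sum_congr rfl (fun i _ => ?_)
      rw [map_sub]
      have h7 : D.φ (C (constantCoeff (coord D.φ D.x D.hb h {i})))
          = algebraMap k R (D.κ {i} h) := by
        change D.φ (algebraMap k _ _) = _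
        rw [AlgHom.commutes]
        rfl
      rw [h7]
      ring
    rw [h6]
    refine Submodule.sub_mem _ h5 (Ideal.sum_mem _ (fun i _ => ?_))
    exact Ideal.mul_mem_mul (D.hφ _ (sub_C_mem _)) (D.a_mem i)
  exact congrFun (D.indep_a _ key) i

/-- The elements `h_j` with trace `w_j`, normalized modulo `K`. -/
theorem exists_h (j : Fin g) : ∃ h : R, D.φ (D.w j) = D.T h ∧
    ∀ i, D.κ {i} h = if i = j then 1 else 0 := by
  classical
  obtain ⟨h, hh⟩ := D.structure_thm.2 (D.w j) (Ideal.subset_span ⟨j, rfl⟩)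
  refine ⟨h, hh, fun i => ?_⟩
  have h1 : D.T (h - D.x j) ∈ maximalIdeal R * D.J := by
    rw [map_sub, ← hh, D.T_x]
    have h2 : D.φ (D.w j) - D.a j = -((D.x j + D.ι (D.x j)) - D.φ (D.w j)) := by
      rw [a]; ring
    rw [h2]
    exact Submodule.neg_mem _ (D.haw j)
  have h3 := D.κ_of_T _ h1 i
  rw [map_sub, sub_eq_zero] at h3
  rw [h3]
  have h4 := D.κ_mono {i} {j}
  rw [Finset.prod_singleton] at h4
  rw [h4]
  simp only [Finset.singleton_inj]

end Datum

end Q43.KM
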