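import Pool.Agent.Q43.KM.Emb2

/-! # The embedding dimension of the ring of invariants, conclusion -/

universe u

namespace Q43.KM

open MvPowerSeries IsLocalRing RingTheory.Sequence

variable {k : Type u} [Field k] {g : ℕ} {R : Type u} [CommRing R] [Algebra k R]

namespace Datum

variable [IsLocalRing R] (D : Datum k g R)

section

variable [CharP k 2]

theorem T_mem_Inv (r : R) : D.T r ∈ Inv D.ι := D.ι_T r

omit [CharP k 2] in
theorem φ_mem_Inv (p : MvPowerSeries (Fin g) k) : D.φ p ∈ Inv D.ι := D.ιφ p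

/-- The trace as an element of the ring of invariants. -/
noncomputable def tr (r : R) : Inv D.ι := ⟨D.T r, D.T_mem_Inv r⟩

/-- An element of `P` as an invariant. -/
noncomputable def ph (p : MvPowerSeries (Fin g) k) : Inv D.ι := ⟨D.φ p, D.φ_mem_Inv p⟩

theorem T_K_sq [IsLocalRing (Inv D.ι)] (h : R) (hh : h ∈ D.K) :
    D.tr h ∈ (maximalIdeal (Inv D.ι)) ^ 2 := by
  rw [K, Ideal.map] at hh
  induction hh using Submodule.span_induction with
  | mem y hy =>
    obtain ⟨p, hp, rfl⟩ := hy
    have : D.tr (D.φ p) = 0 := Subtype.ext (D.T_of_ι (D.ιφ p))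
    rw [show (D.φ : MvPowerSeries (Fin g) k → R) p = D.φ p from rfl, this]
    exact Submodule.zero_mem _
  | zero =>
    have : D.tr 0 = 0 := Subtype.ext (map_zero _)
    rw [this]
    exact Submodule.zero_mem _
  | add y z _ _ hy hz =>
    have : D.tr (y + z) = D.tr y + D.tr z := Subtype.ext (map_add _ _ _)
    rw [this]
    exact Submodule.add_mem _ hy hz
  | smul s y hy _ =>
    have hy' : y ∈ D.K := hy
    -- s • y in coordinates
    have hsy : s • y ∈ D.K := D.K.mul_mem_left s hy'
    have h1 : D.tr (s • y) = ∑ I, D.ph (coord D.φ D.x D.hb (s • y) I) *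
        D.tr (∏ i ∈ I, D.x i) := by
      apply Subtype.ext
      have h2 : ((∑ I, D.ph (coord D.φ D.x D.hb (s • y) I) * D.tr (∏ i ∈ I, D.x i) : Inv D.ι) : R)
          = ∑ I, D.φ (coord D.φ D.x D.hb (s • y) I) * D.T (∏ i ∈ I, D.x i) := by
        rw [AddSubmonoidClass.coe_finsetSum]
        rfl
      rw [h2, ← D.T_comb, comb_coord]
      rfl
    rw [h1, pow_two]
    refine Ideal.sum_mem _ (fun I _ => Ideal.mul_mem_mul ?_ ?_)
    · rw [mem_maxIdeal_Inv]
      exact D.hφ _ ((mem_map_iff D.φ D.x D.hb (mP k g) _).1 hsy I)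
    · rw [mem_maxIdeal_Inv]
      exact D.J_le (D.T_mem _)

omit [CharP k 2] in
theorem φ_sq [IsLocalRing (Inv D.ι)] (q : MvPowerSeries (Fin g) k) (hq : q ∈ (mP k g) ^ 2) :
    D.ph q ∈ (maximalIdeal (Inv D.ι)) ^ 2 := by
  rw [pow_two] at hq
  induction hq using Submodule.mul_induction_on' with
  | mem_mul_mem a ha b hb =>
    have : D.ph (a * b) = D.ph a * D.ph b := Subtype.ext (map_mul _ _ _)
    rw [this, pow_two]
    exact Ideal.mul_mem_mul ((mem_maxIdeal_Inv _ _).2 (D.hφ _ ha))
      ((mem_maxIdeal_Inv _ _).2 (D.hφ _ hb))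
  | add a _ b _ ha hb =>
    have : D.ph (a + b) = D.ph a + D.ph b := Subtype.ext (map_add _ _ _)
    rw [this]
    exact Submodule.add_mem _ ha hb

variable [IsNoetherianRing R]

omit [CharP k 2] [IsNoetherianRing R] in
theorem const_zero (p : MvPowerSeries (Fin g) k) (h : D.φ p ∈ maximalIdeal R) :
    constantCoeff p = 0 := by
  by_contra hne
  have h1 : D.φ (p - C (constantCoeff p)) ∈ maximalIdeal R := D.hφ _ (sub_C_mem p)
  have h2 : D.φ (C (constantCoeff p)) = algebraMap k R (constantCoeff p) := by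
    change D.φ (algebraMap k _ _) = _
    rw [AlgHom.commutes]
  rw [map_sub, h2] at h1
  have h3 : algebraMap k R (constantCoeff p) ∈ maximalIdeal R := by
    have := (maximalIdeal R).sub_mem h h1
    rwa [sub_sub_cancel] at this
  have h4 : IsUnit (algebraMap k R (constantCoeff p)) := (Ne.isUnit hne).map _
  exact (mem_maximalIdeal _).1 h3 h4

/-- Every invariant in the maximal ideal is `φ p + T r` with `p` in the maximal ideal. -/
theorem decomp (s : R) (hs : D.ι s = s) (hsm : s ∈ maximalIdeal R) :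
    ∃ p r, p ∈ mP k g ∧ s = D.φ p + D.T r := by
  obtain ⟨p, r, h⟩ := D.structure_thm.1 s (D.T_of_ι hs)
  refine ⟨p, r, D.const_zero p ?_, h⟩
  have : D.φ p = s - D.T r := by rw [h]; ring
  rw [this]
  exact Ideal.sub_mem _ hsm (D.J_le (D.T_mem r))

/-- Membership in the square of the maximal ideal of the ring of invariants. -/
theorem of_sq [IsLocalRing (Inv D.ι)] (s : Inv D.ι) (hs : s ∈ (maximalIdeal (Inv D.ι)) ^ 2) :
    ∃ q h, q ∈ (mP k g) ^ 2 ∧ h ∈ D.K ∧ (s : R) = D.φ q + D.T h := by
  rw [pow_two] at hs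
  induction hs using Submodule.mul_induction_on' with
  | mem_mul_mem a ha b hb =>
    obtain ⟨p1, r1, hp1, h1⟩ := D.decomp a a.2 ((mem_maxIdeal_Inv _ _).1 ha)
    obtain ⟨p2, r2, hp2, h2⟩ := D.decomp b b.2 ((mem_maxIdeal_Inv _ _).1 hb)
    refine ⟨p1 * p2, D.φ p1 * r2 + D.φ p2 * r1 + D.T r1 * r2, ?_, ?_, ?_⟩
    · rw [pow_two]; exact Ideal.mul_mem_mul hp1 hp2
    · refine Ideal.add_mem _ (Ideal.add_mem _ ?_ ?_) ?_
      · exact Ideal.mul_mem_right _ _ (Ideal.mem_map_of_mem _ hp1)
      · exact Ideal.mul_mem_right _ _ (Ideal.mem_map_of_mem _ hp2)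
      · exact Ideal.mul_mem_right _ _ (D.J_le_K (D.T_mem r1))
    · change (a : R) * (b : R) = _
      rw [h1, h2, map_add, map_add, D.T_φ, D.T_φ, D.T_mul (D.ι_T r1), map_mul]
      ring
  | add a _ b _ ha hb =>
    obtain ⟨q1, h1, hq1, hh1, e1⟩ := ha
    obtain ⟨q2, h2, hq2, hh2, e2⟩ := hb
    refine ⟨q1 + q2, h1 + h2, Ideal.add_mem _ hq1 hq2, Ideal.add_mem _ hh1 hh2, ?_⟩
    change (a : R) + (b : R) = _
    rw [e1, e2, map_add, map_add]
    ring

/-- The index set of the minimal generators. -/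
abbrev Idx (g : ℕ) : Type := Fin g ⊕ {I : Finset (Fin g) // 2 ≤ I.card}

theorem card_Idx (g : ℕ) : Fintype.card (Idx g) = 2 ^ g - 1 := by
  classical
  have h1 : Fintype.card {I : Finset (Fin g) // 2 ≤ I.card} + (g + 1) = 2 ^ g := by
    rw [Fintype.card_subtype]
    have h2 : (Finset.univ : Finset (Finset (Fin g))).card = 2 ^ g := by simp
    have h3 := Finset.card_filter_add_card_filter_not (s := (Finset.univ : Finset (Finset (Fin g))))
      (fun I => 2 ≤ I.card)
    rw [h2] at h3
    rw [← h3]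
    congr 1
    have h4 : (Finset.univ.filter (fun I : Finset (Fin g) => ¬ 2 ≤ I.card))
        = insert ∅ (Finset.univ.image (fun i : Fin g => ({i} : Finset (Fin g)))) := by
      ext I
      simp only [Finset.mem_filter, Finset.mem_univ, true_and, Finset.mem_insert, Finset.mem_image]
      constructor
      · intro h
        by_cases hI : I = ∅
        · exact Or.inl hI
        · right
          have h5 := Finset.card_pos.2 (Finset.nonempty_iff_ne_empty.2 hI)
          obtain ⟨j, rfl⟩ := Finset.card_eq_one.1 (show I.card = 1 by omega)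
          exact ⟨j, rfl⟩
      · rintro (rfl | ⟨j, rfl⟩) <;> simp
    rw [h4, Finset.card_insert_of_notMem]
    · rw [Finset.card_image_of_injective _ Finset.singleton_injective]
      simp
    · simp
  rw [Fintype.card_sum, Fintype.card_fin]
  omega

/-- The minimal generators of the maximal ideal of the ring of invariants. -/
noncomputable def gen : Idx g → Inv D.ι
  | Sum.inl i => D.ph (X i)
  | Sum.inr I => D.tr (∏ i ∈ I.1, D.x i)

omit [IsNoetherianRing R] in
theorem gen_mem [IsLocalRing (Inv D.ι)] (e : Idx g) : D.gen e ∈ maximalIdeal (Inv D.ι) := by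
  rw [mem_maxIdeal_Inv]
  cases e with
  | inl i => exact D.hφ _ (constantCoeff_X i)
  | inr I => exact D.J_le (D.T_mem _)

end

end Datum

end Q43.KM
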