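import Pool.Agent.Q43.KM.Emb3

/-! # The embedding dimension of the ring of invariants, conclusion -/

universe u

namespace Q43.KM

open MvPowerSeries IsLocalRing RingTheory.Sequence

variable {k : Type u} [Field k] {g : ℕ} {R : Type u} [CommRing R] [Algebra k R]

namespace Datum

variable [IsLocalRing R] (D : Datum k g R) [CharP k 2] [IsNoetherianRing R]

theorem gen_span [IsLocalRing (Inv D.ι)] (s : Inv D.ι) (hs : s ∈ maximalIdeal (Inv D.ι)) :
    ∃ c : Idx g → k, s - ∑ e, algebraMap k (Inv D.ι) (c e) * D.gen e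
      ∈ (maximalIdeal (Inv D.ι)) ^ 2 := by
  classical
  choose h hh hκ using D.exists_h
  obtain ⟨p, r, hp, hsr⟩ := D.decomp s s.2 ((mem_maxIdeal_Inv _ _).1 hs)
  -- adjust
  set r' : R := r - ∑ j, algebraMap k R (D.κ {j} r) * h j with hr'
  set p' : MvPowerSeries (Fin g) k := p + ∑ j, C (D.κ {j} r) * D.w j with hp'
  have hp'm : p' ∈ mP k g := by
    refine Ideal.add_mem _ hp (Ideal.sum_mem _ (fun j _ => Ideal.mul_mem_left _ _ (D.hw j)))
  have hκr' : ∀ i, D.κ {i} r' = 0 := by
    intro i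
    rw [hr', map_sub, map_sum, Finset.sum_eq_single i]
    · rw [← Algebra.smul_def, map_smul, hκ, if_pos rfl, smul_eq_mul, mul_one, sub_self]
    · intro j _ hj
      rw [← Algebra.smul_def, map_smul, hκ, if_neg (Ne.symm hj), smul_zero]
    · intro h; exact absurd (Finset.mem_univ i) h
  have hs' : (s : R) = D.φ p' + D.T r' := by
    rw [hsr, hp', hr', map_add, map_sub, map_sum, map_sum]
    have h1 : ∀ j, D.φ (C (D.κ {j} r) * D.w j) = D.T (algebraMap k R (D.κ {j} r) * h j) := by
      intro j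
      rw [← Algebra.smul_def, map_smul, ← hh, map_mul, Algebra.smul_def]
      congr 1
      change D.φ (algebraMap k _ _) = _
      rw [AlgHom.commutes]
    rw [Finset.sum_congr rfl (fun j _ => h1 j)]
    ring
  clear_value r' p'
  obtain ⟨c, hc⟩ := exists_lin p' hp'm
  refine ⟨Sum.elim c (fun I => D.κ I.1 r'), ?_⟩
  have hK := D.sub_κ_mem r'
  -- the element as sum of two squares
  have key : s - ∑ e, algebraMap k (Inv D.ι) (Sum.elim c (fun I => D.κ I.1 r') e) * D.gen e
      = D.ph (p' - ∑ i, C (c i) * X i)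
        + D.tr (r' - ∑ I, (algebraMap k R (D.κ I r')) * ∏ i ∈ I, D.x i) := by
    apply Subtype.ext
    have e1 : ((s - ∑ e, algebraMap k (Inv D.ι) (Sum.elim c (fun I => D.κ I.1 r') e) * D.gen e
        : Inv D.ι) : R) = s - ∑ e, algebraMap k R (Sum.elim c (fun I => D.κ I.1 r') e)
          * (D.gen e : R) := by
      rw [AddSubgroupClass.coe_sub, AddSubmonoidClass.coe_finsetSum]
      rfl
    have e2 : ((D.ph (p' - ∑ i, C (c i) * X i)
        + D.tr (r' - ∑ I, (algebraMap k R (D.κ I r')) * ∏ i ∈ I, D.x i) : Inv D.ι) : R)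
        = D.φ (p' - ∑ i, C (c i) * X i)
          + D.T (r' - ∑ I, (algebraMap k R (D.κ I r')) * ∏ i ∈ I, D.x i) := rfl
    rw [e1, e2, hs', Fintype.sum_sum_type, map_sub, map_sub, map_sum, map_sum]
    have e3 : ∀ i, D.φ (C (c i) * X i) = algebraMap k R (Sum.elim c (fun I : {I : Finset (Fin g) // 2 ≤ I.card} => D.κ I.1 r') (Sum.inl i))
        * (D.gen (Sum.inl i) : R) := by
      intro i
      rw [map_mul, Sum.elim_inl]
      congr 1
      change D.φ (algebraMap k _ _) = _
      rw [AlgHom.commutes]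
    have e4 : ∑ I, D.T ((algebraMap k R (D.κ I r')) * ∏ i ∈ I, D.x i)
        = ∑ I : {I : Finset (Fin g) // 2 ≤ I.card},
          algebraMap k R (Sum.elim c (fun I => D.κ I.1 r') (Sum.inr I))
            * (D.gen (Sum.inr I) : R) := by
      have e5 : ∀ I, D.T ((algebraMap k R (D.κ I r')) * ∏ i ∈ I, D.x i)
          = algebraMap k R (D.κ I r') * D.T (∏ i ∈ I, D.x i) := by
        intro I
        rw [← Algebra.smul_def, map_smul, Algebra.smul_def]
      rw [Finset.sum_congr rfl (fun I _ => e5 I)]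
      have e6 : ∀ I : {I : Finset (Fin g) // 2 ≤ I.card},
          algebraMap k R (Sum.elim c (fun I => D.κ I.1 r') (Sum.inr I))
            * (D.gen (Sum.inr I) : R) = algebraMap k R (D.κ I.1 r') * D.T (∏ i ∈ I.1, D.x i) :=
        fun I => rfl
      rw [Finset.sum_congr rfl (fun I _ => e6 I)]
      rw [← Finset.sum_subtype (Finset.univ.filter (fun I : Finset (Fin g) => 2 ≤ I.card))
        (by intro I; simp) (fun I => algebraMap k R (D.κ I r') * D.T (∏ i ∈ I, D.x i))]
      symm
      refine Finset.sum_subset (Finset.filter_subset _ _) (fun I _ hI => ?_)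
      rw [Finset.mem_filter] at hI
      have hI2 : ¬ 2 ≤ I.card := fun h => hI ⟨Finset.mem_univ _, h⟩
      by_cases hI0 : I = ∅
      · rw [hI0, Finset.prod_empty, D.T_of_ι (map_one _), mul_zero]
      · have h5 := Finset.card_pos.2 (Finset.nonempty_iff_ne_empty.2 hI0)
        obtain ⟨j, rfl⟩ := Finset.card_eq_one.1 (show I.card = 1 by omega)
        rw [hκr' j, map_zero, zero_mul]
    rw [Finset.sum_congr rfl (fun i _ => e3 i), e4]
    ring
  rw [key]
  exact Submodule.add_mem _ (D.φ_sq _ hc) (D.T_K_sq _ hK)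

theorem gen_indep [IsLocalRing (Inv D.ι)] (c : Idx g → k)
    (hc : ∑ e, algebraMap k (Inv D.ι) (c e) * D.gen e ∈ (maximalIdeal (Inv D.ι)) ^ 2) :
    c = 0 := by
  classical
  choose h hh hκ using D.exists_h
  obtain ⟨q, h', hq, hh', he⟩ := D.of_sq _ hc
  have e1 : ((∑ e, algebraMap k (Inv D.ι) (c e) * D.gen e : Inv D.ι) : R)
      = D.φ (∑ i, C (c (Sum.inl i)) * X i)
        + D.T (∑ I : {I : Finset (Fin g) // 2 ≤ I.card},
          algebraMap k R (c (Sum.inr I)) * ∏ i ∈ I.1, D.x i) := by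
    rw [AddSubmonoidClass.coe_finsetSum, Fintype.sum_sum_type, map_sum, map_sum]
    congr 1
    · refine Finset.sum_congr rfl (fun i _ => ?_)
      rw [map_mul]
      change algebraMap k R _ * D.φ (X i) = D.φ (algebraMap k _ _) * _
      rw [AlgHom.commutes]
    · refine Finset.sum_congr rfl (fun I _ => ?_)
      change algebraMap k R _ * D.T _ = _
      rw [← Algebra.smul_def, ← Algebra.smul_def, map_smul]
  rw [e1] at he
  set y0 : R := ∑ I : {I : Finset (Fin g) // 2 ≤ I.card},
          algebraMap k R (c (Sum.inr I)) * ∏ i ∈ I.1, D.x i with hy0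
  set p : MvPowerSeries (Fin g) k := (∑ i, C (c (Sum.inl i)) * X i) - q with hp
  have h1 : D.φ p = D.T (h' - y0) := by
    rw [hp, map_sub, map_sub]
    linear_combination he
  have h2 : p ∈ D.W := by
    rw [← D.φ_mem_J, h1]
    exact D.T_mem _
  obtain ⟨b, hb⟩ := (Submodule.mem_span_range_iff_exists_fun _).1 h2
  have h3 : D.φ p = D.T (∑ j, D.φ (b j) * h j) := by
    rw [← hb, map_sum, map_sum]
    refine Finset.sum_congr rfl (fun j _ => ?_)
    rw [smul_eq_mul, map_mul, D.T_φ, hh]
  obtain ⟨p', r', h4⟩ := D.structure_thm.1 ((∑ j, D.φ (b j) * h j) - (h' - y0)) (by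
    rw [map_sub, ← h3, ← h1, sub_self])
  have hκy0 : ∀ J, D.κ J y0 = if hJ : 2 ≤ J.card then c (Sum.inr ⟨J, hJ⟩) else 0 := by
    intro J
    rw [hy0, map_sum]
    have e5 : ∀ I : {I : Finset (Fin g) // 2 ≤ I.card},
        D.κ J (algebraMap k R (c (Sum.inr I)) * ∏ i ∈ I.1, D.x i)
          = c (Sum.inr I) * (if J = I.1 then 1 else 0) := by
      intro I
      rw [← Algebra.smul_def, map_smul, D.κ_mono, smul_eq_mul]
    rw [Finset.sum_congr rfl (fun I _ => e5 I)]
    split_ifs with hJ
    · rw [Finset.sum_eq_single ⟨J, hJ⟩]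
      · rw [if_pos rfl, mul_one]
      · intro I _ hI
        rw [if_neg (fun h => hI (Subtype.ext h.symm)), mul_zero]
      · intro h; exact absurd (Finset.mem_univ _) h
    · refine Finset.sum_eq_zero (fun I _ => ?_)
      rw [if_neg (fun h0 => hJ (by rw [h0]; exact I.2)), mul_zero]
  have hκh' : ∀ J, D.κ J h' = 0 := (D.mem_K h').1 hh'
  have hκT : ∀ J, D.κ J (D.T r') = 0 := (D.mem_K _).1 (D.J_le_K (D.T_mem r'))
  have hκφ : ∀ J : Finset (Fin g), J.Nonempty → D.κ J (D.φ p') = 0 := fun J hJ => D.κ_φ p' J hJ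
  have hsum : ∀ J : Finset (Fin g), J.Nonempty →
      ∑ j, constantCoeff (b j) * D.κ J (h j) + D.κ J y0 = 0 := by
    intro J hJ
    have := congrArg (D.κ J) h4
    rw [map_sub, map_sub, map_add, hκh', hκT, hκφ J hJ, map_sum] at this
    rw [Finset.sum_congr rfl (fun j _ => D.κ_φ_mul (b j) (h j) J)] at this
    linear_combination this
  have hb0 : ∀ i, constantCoeff (b i) = 0 := by
    intro i
    have h5 := hsum {i} (Finset.singleton_nonempty i)
    rw [hκy0, dif_neg (by simp), add_zero, Finset.sum_eq_single i] at h5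
    · rwa [hκ, if_pos rfl, mul_one] at h5
    · intro j _ hj
      rw [hκ, if_neg (Ne.symm hj), mul_zero]
    · intro h; exact absurd (Finset.mem_univ _) h
  have hp2 : p ∈ (mP k g) ^ 2 := by
    rw [← hb, pow_two]
    exact Ideal.sum_mem _ (fun j _ => Ideal.mul_mem_mul (hb0 j) (D.hw j))
  have h6 : ∑ i, C (c (Sum.inl i)) * X i ∈ (mP k g) ^ 2 := by
    have : ∑ i, C (c (Sum.inl i)) * X i = p + q := by rw [hp]; ring
    rw [this]
    exact Ideal.add_mem _ hp2 hq
  have h7 := lin_zero _ h6
  funext e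
  cases e with
  | inl i => exact congrFun h7 i
  | inr I =>
    have h8 := hsum I.1 (Finset.card_pos.1 (by have := I.2; omega))
    rw [hκy0, dif_pos I.2, Finset.sum_eq_zero (fun j _ => by rw [hb0, zero_mul]), zero_add] at h8
    exact h8

/-- Every element of the ring of invariants is congruent to a constant. -/
theorem exists_const [IsLocalRing (Inv D.ι)] (s : Inv D.ι) :
    ∃ c : k, s - algebraMap k (Inv D.ι) c ∈ maximalIdeal (Inv D.ι) := by
  obtain ⟨p, r, h⟩ := D.structure_thm.1 s (D.T_of_ι s.2)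
  refine ⟨constantCoeff p, ?_⟩
  rw [mem_maxIdeal_Inv]
  have h1 : ((s - algebraMap k (Inv D.ι) (constantCoeff p) : Inv D.ι) : R)
      = D.φ (p - C (constantCoeff p)) + D.T r := by
    change (s : R) - algebraMap k R _ = _
    have h2 : D.φ (C (constantCoeff p)) = algebraMap k R (constantCoeff p) := by
      change D.φ (algebraMap k _ _) = _
      rw [AlgHom.commutes]
    rw [h, map_sub, h2]
    ring
  rw [h1]
  exact Ideal.add_mem _ (D.hφ _ (sub_C_mem p)) (D.J_le (D.T_mem r))

/-- The embedding dimension of the ring of invariants. -/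
theorem finrank_cotangent [IsLocalRing (Inv D.ι)] :
    Module.finrank (ResidueField (Inv D.ι)) (CotangentSpace (Inv D.ι)) = 2 ^ g - 1 := by
  classical
  let v : Idx g → CotangentSpace (Inv D.ι) :=
    fun e => (maximalIdeal (Inv D.ι)).toCotangent ⟨D.gen e, D.gen_mem e⟩
  have hres : ∀ x : ResidueField (Inv D.ι), ∃ c : k,
      x = residue (Inv D.ι) (algebraMap k (Inv D.ι) c) := by
    intro x
    obtain ⟨s, rfl⟩ := residue_surjective x
    obtain ⟨c, hc⟩ := D.exists_const s
    refine ⟨c, ?_⟩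
    rw [← sub_eq_zero, ← map_sub]
    exact (residue_eq_zero_iff _).2 hc
  have hcomb : ∀ c : Idx g → k, ∑ e, residue (Inv D.ι) (algebraMap k (Inv D.ι) (c e)) • v e
      = (maximalIdeal (Inv D.ι)).toCotangent ⟨∑ e, algebraMap k (Inv D.ι) (c e) * D.gen e,
        Ideal.sum_mem _ (fun e _ => Ideal.mul_mem_left _ _ (D.gen_mem e))⟩ := by
    intro c
    have h1 : ∀ e, residue (Inv D.ι) (algebraMap k (Inv D.ι) (c e)) • v e
        = (maximalIdeal (Inv D.ι)).toCotangent
          ((algebraMap k (Inv D.ι) (c e)) • ⟨D.gen e, D.gen_mem e⟩) := by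
      intro e
      rw [map_smul]
      rfl
    rw [Finset.sum_congr rfl (fun e _ => h1 e), ← map_sum]
    congr 1
    apply Subtype.ext
    rw [AddSubmonoidClass.coe_finsetSum]
    rfl
  have hli : LinearIndependent (ResidueField (Inv D.ι)) v := by
    rw [Fintype.linearIndependent_iff]
    intro x hx
    choose c hc using fun e => hres (x e)
    have h1 : ∑ e, residue (Inv D.ι) (algebraMap k (Inv D.ι) (c e)) • v e = 0 := by
      rw [← hx]
      exact Finset.sum_congr rfl (fun e _ => by rw [← hc e])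
    rw [hcomb, Ideal.toCotangent_eq_zero] at h1
    have h2 := D.gen_indep c h1
    intro e
    rw [hc e, h2, Pi.zero_apply, map_zero, map_zero]
  have hsp : ⊤ ≤ Submodule.span (ResidueField (Inv D.ι)) (Set.range v) := by
    intro y _
    obtain ⟨⟨s, hs⟩, rfl⟩ := Ideal.toCotangent_surjective _ y
    obtain ⟨c, hc⟩ := D.gen_span s hs
    have h1 : (maximalIdeal (Inv D.ι)).toCotangent ⟨s, hs⟩
        = ∑ e, residue (Inv D.ι) (algebraMap k (Inv D.ι) (c e)) • v e := by
      rw [hcomb, Ideal.toCotangent_eq]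
      exact hc
    rw [h1]
    exact Submodule.sum_mem _ (fun e _ => Submodule.smul_mem _ _ (Submodule.subset_span ⟨e, rfl⟩))
  rw [Module.finrank_eq_card_basis (Module.Basis.mk hli hsp), card_Idx]

end Datum

end Q43.KM
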