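import Pool.Agent.Q43.KM.Basis

/-! # Formal group laws in characteristic two -/

universe u v

namespace Q43.KM

open MvPowerSeries IsLocalRing

/-- A commutative formal group law of dimension `g` over `k`, with its inverse series. -/
structure FormalGroupLaw (k : Type u) [Field k] (g : ℕ) where
  /-- The group law `F(x, y)`; the first block of variables is `x`, the second is `y`. -/
  F : Fin g → MvPowerSeries (Fin g ⊕ Fin g) k
  /-- The inverse series. -/
  inv : Fin g → MvPowerSeries (Fin g) k
  const_F : ∀ i, constantCoeff (F i) = 0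
  const_inv : ∀ i, constantCoeff (inv i) = 0
  /-- `F(x, 0) = x`. -/
  add_zero : ∀ i, subst (Sum.elim (fun j => (X j : MvPowerSeries (Fin g) k)) (fun _ => 0)) (F i)
    = X i
  /-- `F(0, x) = x`. -/
  zero_add : ∀ i, subst (Sum.elim (fun _ => 0) (fun j => (X j : MvPowerSeries (Fin g) k))) (F i)
    = X i
  /-- `F(y, x) = F(x, y)`. -/
  comm : ∀ i, subst (Sum.elim
      (fun j => (X (Sum.inr j) : MvPowerSeries (Fin g ⊕ Fin g) k))
      (fun j => (X (Sum.inl j) : MvPowerSeries (Fin g ⊕ Fin g) k))) (F i) = F i
  /-- `F(F(x, y), z) = F(x, F(y, z))`. -/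
  assoc : ∀ i,
    subst (Sum.elim
      (fun j => subst (Sum.elim
        (fun l => (X (0, l) : MvPowerSeries (Fin 3 × Fin g) k))
        (fun l => (X (1, l) : MvPowerSeries (Fin 3 × Fin g) k))) (F j))
      (fun l => (X (2, l) : MvPowerSeries (Fin 3 × Fin g) k))) (F i)
    = subst (Sum.elim
      (fun l => (X (0, l) : MvPowerSeries (Fin 3 × Fin g) k))
      (fun j => subst (Sum.elim
        (fun l => (X (1, l) : MvPowerSeries (Fin 3 × Fin g) k))
        (fun l => (X (2, l) : MvPowerSeries (Fin 3 × Fin g) k))) (F j))) (F i)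
  /-- `F(x, inv x) = 0`. -/
  add_inv : ∀ i, subst (Sum.elim (fun j => (X j : MvPowerSeries (Fin g) k)) inv) (F i) = 0

namespace FormalGroupLaw

variable {k : Type u} [Field k] {g : ℕ} (G : FormalGroupLaw k g)

/-- The series `[2](x) = F(x, x)`. -/
noncomputable def two (i : Fin g) : MvPowerSeries (Fin g) k :=
  subst (Sum.elim (fun j => (X j : MvPowerSeries (Fin g) k)) (fun j => X j)) (G.F i)

theorem hasSubst_inv : HasSubst G.inv := hasSubst_of_constantCoeff_zero G.const_inv

/-- The involution `f(x) ↦ f(inv x)` of `k[[x]]`, as an algebra endomorphism. -/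
noncomputable def sgn : MvPowerSeries (Fin g) k →ₐ[k] MvPowerSeries (Fin g) k :=
  substAlgHom G.hasSubst_inv

/-- Addition of points with values in a power series ring. -/
noncomputable def add {τ : Type v} (a b : Fin g → MvPowerSeries τ k) : Fin g → MvPowerSeries τ k :=
  fun i => subst (Sum.elim a b) (G.F i)

/-- Negation of points with values in a power series ring. -/
noncomputable def neg {τ : Type v} (a : Fin g → MvPowerSeries τ k) : Fin g → MvPowerSeries τ k :=
  fun i => subst a (G.inv i)

section points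

variable {τ : Type v} {a b c : Fin g → MvPowerSeries τ k}

theorem hs2 (ha : ∀ i, constantCoeff (a i) = 0) (hb : ∀ i, constantCoeff (b i) = 0) :
    HasSubst (Sum.elim a b) :=
  hasSubst_of_constantCoeff_zero (by rintro (i | i); exacts [ha i, hb i])

theorem const_add (ha : ∀ i, constantCoeff (a i) = 0) (hb : ∀ i, constantCoeff (b i) = 0)
    (i : Fin g) : constantCoeff (G.add a b i) = 0 :=
  constantCoeff_subst_eq_zero (hs2 ha hb) (by rintro (i | i); exacts [ha i, hb i]) (G.const_F i)

theorem const_neg (ha : ∀ i, constantCoeff (a i) = 0) (i : Fin g) :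
    constantCoeff (G.neg a i) = 0 :=
  constantCoeff_subst_eq_zero (hasSubst_of_constantCoeff_zero ha) ha (G.const_inv i)

theorem add_zero' (ha : ∀ i, constantCoeff (a i) = 0) : G.add a (fun _ => 0) = a := by
  funext i
  have h := congrArg (subst a) (G.add_zero i)
  have ha' := hasSubst_of_constantCoeff_zero ha
  rw [subst_X ha', subst_comp_subst_apply (hs2 constantCoeff_X (fun _ => map_zero _)) ha'] at h
  rw [add, ← h]
  congr 1
  funext s
  rcases s with j | j
  · simp only [Sum.elim_inl]
    rw [subst_X ha']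
  · simp only [Sum.elim_inr]
    rw [← coe_substAlgHom ha', map_zero]

theorem zero_add' (ha : ∀ i, constantCoeff (a i) = 0) : G.add (fun _ => 0) a = a := by
  funext i
  have h := congrArg (subst a) (G.zero_add i)
  have ha' := hasSubst_of_constantCoeff_zero ha
  rw [subst_X ha', subst_comp_subst_apply (hs2 (fun _ => map_zero _) constantCoeff_X) ha'] at h
  rw [add, ← h]
  congr 1
  funext s
  rcases s with j | j
  · simp only [Sum.elim_inl]
    rw [← coe_substAlgHom ha', map_zero]
  · simp only [Sum.elim_inr]
    rw [subst_X ha']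

theorem comm' (ha : ∀ i, constantCoeff (a i) = 0) (hb : ∀ i, constantCoeff (b i) = 0) :
    G.add a b = G.add b a := by
  funext i
  have h := congrArg (subst (Sum.elim b a)) (G.comm i)
  have hba := hs2 hb ha
  rw [subst_comp_subst_apply (hs2 (fun _ => constantCoeff_X _) (fun _ => constantCoeff_X _)) hba]
    at h
  rw [add, add, ← h]
  congr 1
  funext s
  rcases s with j | j
  · simp only [Sum.elim_inl]
    rw [subst_X hba, Sum.elim_inr]
  · simp only [Sum.elim_inr]
    rw [subst_X hba, Sum.elim_inl]

theorem assoc' (ha : ∀ i, constantCoeff (a i) = 0) (hb : ∀ i, constantCoeff (b i) = 0)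
    (hc : ∀ i, constantCoeff (c i) = 0) :
    G.add (G.add a b) c = G.add a (G.add b c) := by
  funext i
  let w : Fin 3 × Fin g → MvPowerSeries τ k := fun p =>
    if p.1 = 0 then a p.2 else if p.1 = 1 then b p.2 else c p.2
  have hw0 : ∀ l, w (0, l) = a l := fun l => rfl
  have hw1 : ∀ l, w (1, l) = b l := fun l => rfl
  have hw2 : ∀ l, w (2, l) = c l := fun l => rfl
  have hwc : ∀ p, constantCoeff (w p) = 0 := by
    rintro ⟨p, l⟩
    fin_cases p
    · exact ha l
    · exact hb l
    · exact hc l
  have hw : HasSubst w := hasSubst_of_constantCoeff_zero hwc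
  have hX : ∀ q : Fin 3, ∀ l, constantCoeff (X (q, l) : MvPowerSeries (Fin 3 × Fin g) k) = 0 :=
    fun q l => constantCoeff_X _
  have h1 : HasSubst (Sum.elim
        (fun l => (X (0, l) : MvPowerSeries (Fin 3 × Fin g) k))
        (fun l => (X (1, l) : MvPowerSeries (Fin 3 × Fin g) k))) := hs2 (hX 0) (hX 1)
  have h2 : HasSubst (Sum.elim
        (fun l => (X (1, l) : MvPowerSeries (Fin 3 × Fin g) k))
        (fun l => (X (2, l) : MvPowerSeries (Fin 3 × Fin g) k))) := hs2 (hX 1) (hX 2)
  have h3 : HasSubst (Sum.elim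
      (fun j => subst (Sum.elim
        (fun l => (X (0, l) : MvPowerSeries (Fin 3 × Fin g) k))
        (fun l => (X (1, l) : MvPowerSeries (Fin 3 × Fin g) k))) (G.F j))
      (fun l => (X (2, l) : MvPowerSeries (Fin 3 × Fin g) k))) :=
    hs2 (G.const_add (hX 0) (hX 1)) (hX 2)
  have h4 : HasSubst (Sum.elim
      (fun l => (X (0, l) : MvPowerSeries (Fin 3 × Fin g) k))
      (fun j => subst (Sum.elim
        (fun l => (X (1, l) : MvPowerSeries (Fin 3 × Fin g) k))
        (fun l => (X (2, l) : MvPowerSeries (Fin 3 × Fin g) k))) (G.F j))) :=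
    hs2 (hX 0) (G.const_add (hX 1) (hX 2))
  have h := congrArg (subst w) (G.assoc i)
  rw [subst_comp_subst_apply h3 hw, subst_comp_subst_apply h4 hw] at h
  have e1 : (fun s => subst w (Sum.elim
      (fun j => subst (Sum.elim
        (fun l => (X (0, l) : MvPowerSeries (Fin 3 × Fin g) k))
        (fun l => (X (1, l) : MvPowerSeries (Fin 3 × Fin g) k))) (G.F j))
      (fun l => (X (2, l) : MvPowerSeries (Fin 3 × Fin g) k)) s)) = Sum.elim (G.add a b) c := by
    funext s
    rcases s with j | j
    · simp only [Sum.elim_inl]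
      rw [subst_comp_subst_apply h1 hw, add]
      congr 1
      funext s
      rcases s with l | l
      · simp only [Sum.elim_inl]
        rw [subst_X hw, hw0]
      · simp only [Sum.elim_inr]
        rw [subst_X hw, hw1]
    · simp only [Sum.elim_inr]
      rw [subst_X hw, hw2]
  have e2 : (fun s => subst w (Sum.elim
      (fun l => (X (0, l) : MvPowerSeries (Fin 3 × Fin g) k))
      (fun j => subst (Sum.elim
        (fun l => (X (1, l) : MvPowerSeries (Fin 3 × Fin g) k))
        (fun l => (X (2, l) : MvPowerSeries (Fin 3 × Fin g) k))) (G.F j)) s))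
      = Sum.elim a (G.add b c) := by
    funext s
    rcases s with j | j
    · simp only [Sum.elim_inl]
      rw [subst_X hw, hw0]
    · simp only [Sum.elim_inr]
      rw [subst_comp_subst_apply h2 hw, add]
      congr 1
      funext s
      rcases s with l | l
      · simp only [Sum.elim_inl]
        rw [subst_X hw, hw1]
      · simp only [Sum.elim_inr]
        rw [subst_X hw, hw2]
  rw [e1, e2] at h
  exact h

theorem add_neg' (ha : ∀ i, constantCoeff (a i) = 0) : G.add a (G.neg a) = fun _ => 0 := by
  funext i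
  have h := congrArg (subst a) (G.add_inv i)
  have ha' := hasSubst_of_constantCoeff_zero ha
  rw [subst_comp_subst_apply (hs2 constantCoeff_X G.const_inv) ha'] at h
  rw [← coe_substAlgHom ha', map_zero, coe_substAlgHom] at h
  rw [add, ← h]
  congr 1
  funext s
  rcases s with j | j
  · simp only [Sum.elim_inl]
    rw [subst_X ha']
  · simp only [Sum.elim_inr]
    rfl

/-- Uniqueness of the inverse. -/
theorem neg_neg' (ha : ∀ i, constantCoeff (a i) = 0) : G.neg (G.neg a) = a := by
  have h0 : ∀ i : Fin g, constantCoeff (0 : MvPowerSeries τ k) = 0 := fun _ => map_zero _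
  have h1 := G.const_neg ha
  have h2 := G.const_neg h1
  calc G.neg (G.neg a) = G.add (fun _ => 0) (G.neg (G.neg a)) := (G.zero_add' h2).symm
    _ = G.add (G.add a (G.neg a)) (G.neg (G.neg a)) := by rw [G.add_neg' ha]
    _ = G.add a (G.add (G.neg a) (G.neg (G.neg a))) := G.assoc' ha h1 h2
    _ = G.add a (fun _ => 0) := by rw [G.add_neg' h1]
    _ = a := G.add_zero' ha

end points

theorem sgn_apply (f : MvPowerSeries (Fin g) k) : G.sgn f = subst G.inv f := by
  rw [sgn, substAlgHom_apply]

theorem sgn_X (i : Fin g) : G.sgn (X i) = G.inv i := by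
  rw [sgn_apply, subst_X G.hasSubst_inv]

theorem neg_X : G.neg (fun j => (X j : MvPowerSeries (Fin g) k)) = G.inv := by
  funext i
  rw [neg]
  exact congrFun (subst_self) (G.inv i)

theorem sgn_sgn (f : MvPowerSeries (Fin g) k) : G.sgn (G.sgn f) = f := by
  rw [sgn_apply, sgn_apply, subst_comp_subst_apply G.hasSubst_inv G.hasSubst_inv]
  have h : (fun s => subst G.inv (G.inv s)) = (fun j => (X j : MvPowerSeries (Fin g) k)) := by
    have h1 := G.neg_neg' (a := fun j => (X j : MvPowerSeries (Fin g) k)) constantCoeff_X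
    rw [G.neg_X] at h1
    exact h1
  rw [h]
  exact congrFun (subst_self) f

/-- `F(inv x, [2](x)) = x`. -/
theorem inv_add_two : G.add G.inv G.two = (fun j => (X j : MvPowerSeries (Fin g) k)) := by
  have hX : ∀ i, constantCoeff (X i : MvPowerSeries (Fin g) k) = 0 := constantCoeff_X
  have h1 : G.two = G.add (fun j => (X j : MvPowerSeries (Fin g) k)) (fun j => X j) := rfl
  have h2 : G.add G.inv (fun j => (X j : MvPowerSeries (Fin g) k)) = fun _ => 0 := by
    rw [G.comm' G.const_inv hX, ← G.neg_X]
    exact G.add_neg' hX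
  rw [h1, ← G.assoc' G.const_inv hX hX, h2, G.zero_add' hX]

end FormalGroupLaw

end Q43.KM
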