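import Pool.Agent.Q43.KM.Emb4
import Pool.Agent.Q43.KM.FG
import Pool.Agent.Q43.KM.Diff

/-! # The ring of invariants of the inverse of a formal group in characteristic two -/

universe u

namespace Q43.KM

open MvPowerSeries IsLocalRing RingTheory.Sequence

namespace FormalGroupLaw

variable {k : Type u} [Field k] {g : ℕ} (G : FormalGroupLaw k g)

/-- The ideal generated by the series `[2](x)`. -/
noncomputable def J2 : Ideal (MvPowerSeries (Fin g) k) := Ideal.span (Set.range G.two)

theorem mem_max (p : MvPowerSeries (Fin g) k) :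
    p ∈ maximalIdeal (MvPowerSeries (Fin g) k) ↔ constantCoeff p = 0 := by
  rw [mem_maximalIdeal, mem_nonunits_iff, MvPowerSeries.isUnit_iff_constantCoeff, isUnit_iff_ne_zero,
    not_not]

theorem const_two (i : Fin g) : constantCoeff (G.two i) = 0 :=
  G.const_add constantCoeff_X constantCoeff_X i

/-- The mixed part of the group law lies in the product of the two coordinate ideals, after
evaluation. -/
theorem mixed (y z : Fin g → MvPowerSeries (Fin g) k) (hy : ∀ i, constantCoeff (y i) = 0)
    (hz : ∀ i, constantCoeff (z i) = 0) (i : Fin g) :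
    G.add y z i - y i - z i ∈ maximalIdeal (MvPowerSeries (Fin g) k) * Ideal.span (Set.range z) := by
  classical
  have hXl : ∀ j : Fin g, constantCoeff (X (Sum.inl j) : MvPowerSeries (Fin g ⊕ Fin g) k) = 0 :=
    fun j => constantCoeff_X _
  have hXr : ∀ j : Fin g, constantCoeff (X (Sum.inr j) : MvPowerSeries (Fin g ⊕ Fin g) k) = 0 :=
    fun j => constantCoeff_X _
  have h0 : ∀ j : Fin g, constantCoeff (0 : MvPowerSeries (Fin g ⊕ Fin g) k) = 0 :=
    fun _ => map_zero _
  have h0' : ∀ j : Fin g, constantCoeff (0 : MvPowerSeries (Fin g) k) = 0 :=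
    fun _ => map_zero _
  -- the substitutions
  have hs0 : HasSubst (Sum.elim (fun j => (X (Sum.inl j) : MvPowerSeries (Fin g ⊕ Fin g) k))
      (fun _ : Fin g => 0)) := hs2 hXl h0
  have hs1 : HasSubst (Sum.elim (fun _ : Fin g => 0)
      (fun j => (X (Sum.inr j) : MvPowerSeries (Fin g ⊕ Fin g) k))) := hs2 h0 hXr
  have hev : HasSubst (Sum.elim y z) := hs2 hy hz
  set s0 : MvPowerSeries (Fin g ⊕ Fin g) k →ₐ[k] MvPowerSeries (Fin g ⊕ Fin g) k :=
    substAlgHom hs0 with hs0def
  set s1 : MvPowerSeries (Fin g ⊕ Fin g) k →ₐ[k] MvPowerSeries (Fin g ⊕ Fin g) k :=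
    substAlgHom hs1 with hs1def
  set ev : MvPowerSeries (Fin g ⊕ Fin g) k →ₐ[k] MvPowerSeries (Fin g) k :=
    substAlgHom hev with hevdef
  have hs0l : ∀ l, s0 (X (Sum.inl l)) = X (Sum.inl l) := fun l => by
    rw [hs0def, substAlgHom_X, Sum.elim_inl]
  have hs0r : ∀ l, s0 (X (Sum.inr l)) = 0 := fun l => by
    rw [hs0def, substAlgHom_X, Sum.elim_inr]
  have hevl : ∀ l, ev (X (Sum.inl l)) = y l := fun l => by
    rw [hevdef, substAlgHom_X, Sum.elim_inl]
  have hevr : ∀ l, ev (X (Sum.inr l)) = z l := fun l => by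
    rw [hevdef, substAlgHom_X, Sum.elim_inr]
  set P : MvPowerSeries (Fin g ⊕ Fin g) k := G.F i - X (Sum.inl i) - X (Sum.inr i) with hP
  -- `P(x, 0) = 0` and `P(0, x) = 0`
  have hP0 : s0 P = 0 := by
    rw [hP, map_sub, map_sub, hs0def, substAlgHom_X, substAlgHom_X, Sum.elim_inl, Sum.elim_inr,
      substAlgHom_apply]
    have := congrFun (G.add_zero' hXl) i
    rw [add] at this
    rw [this, sub_zero, sub_self]
  have hP1 : s1 P = 0 := by
    rw [hP, map_sub, map_sub, hs1def, substAlgHom_X, substAlgHom_X, Sum.elim_inl, Sum.elim_inr,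
      substAlgHom_apply]
    have := congrFun (G.zero_add' hXr) i
    rw [add] at this
    rw [this, sub_zero, sub_self]
  -- `P` lies in the ideal of the first block
  have hPI : P ∈ Ideal.span (Set.range
      (fun j : Fin g => (X (Sum.inl j) : MvPowerSeries (Fin g ⊕ Fin g) k))) := by
    have h := hom_diff (AlgHom.id k _) s1 (Ideal.span (Set.range
      (fun j : Fin g => (X (Sum.inl j) : MvPowerSeries (Fin g ⊕ Fin g) k)))) (by
        rintro (j | j)
        · rw [hs1def, substAlgHom_X, Sum.elim_inl, sub_zero]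
          exact Ideal.subset_span ⟨j, rfl⟩
        · rw [hs1def, substAlgHom_X, Sum.elim_inr, AlgHom.id_apply, sub_self]
          exact Ideal.zero_mem _) (by
        rintro (j | j)
        · rw [hs1def, substAlgHom_X, Sum.elim_inl]
          exact Ideal.zero_mem _
        · rw [hs1def, substAlgHom_X, Sum.elim_inr, mem_maximalIdeal, mem_nonunits_iff,
            MvPowerSeries.isUnit_iff_constantCoeff, constantCoeff_X]
          exact not_isUnit_zero) P
    rwa [hP1, sub_zero, AlgHom.id_apply] at h
  obtain ⟨f, hf⟩ := (Submodule.mem_span_range_iff_exists_fun _).1 hPI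
  -- correct the coefficients
  have hP2 : P = ∑ j, (f j - s0 (f j)) * X (Sum.inl j) := by
    have h1 : ∑ j, s0 (f j) * X (Sum.inl j) = 0 := by
      have h2 := congrArg s0 hf
      rw [hP0, map_sum] at h2
      rw [← h2]
      refine Finset.sum_congr rfl (fun j _ => ?_)
      rw [smul_eq_mul, map_mul]
      congr 1
      rw [hs0def, substAlgHom_X, Sum.elim_inl]
    have h3 : ∑ j, (f j - s0 (f j)) * X (Sum.inl j)
        = ∑ j, f j • (X (Sum.inl j) : MvPowerSeries (Fin g ⊕ Fin g) k)
          - ∑ j, s0 (f j) * X (Sum.inl j) := by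
      rw [← Finset.sum_sub_distrib]
      exact Finset.sum_congr rfl (fun j _ => by rw [smul_eq_mul]; ring)
    rw [h3, hf, h1, sub_zero]
  have hevP : ev P = G.add y z i - y i - z i := by
    rw [hP, map_sub, map_sub, hevdef, substAlgHom_X, substAlgHom_X, Sum.elim_inl, Sum.elim_inr,
      substAlgHom_apply, add]
  rw [← hevP, hP2, map_sum]
  refine Ideal.sum_mem _ (fun j _ => ?_)
  rw [map_mul, map_sub]
  refine Ideal.mul_mem_mul_rev ?_ ?_
  · rw [hevl, mem_max]
    exact hy j
  · refine hom_diff ev (ev.comp s0) _ ?_ ?_ (f j)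
    · rintro (l | l)
      · rw [AlgHom.comp_apply, hs0l, sub_self]
        exact Ideal.zero_mem _
      · rw [AlgHom.comp_apply, hs0r, map_zero, sub_zero, hevr]
        exact Ideal.subset_span ⟨l, rfl⟩
    · rintro (l | l)
      · rw [AlgHom.comp_apply, hs0l, hevl, mem_max]
        exact hy l
      · rw [AlgHom.comp_apply, hs0r, map_zero]
        exact Ideal.zero_mem _

variable [CharP k 2]

theorem add_self' (r : MvPowerSeries (Fin g) k) : r + r = 0 := by
  have h : (2 : MvPowerSeries (Fin g) k) = 0 := by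
    have h1 : (2 : k) = 0 := CharTwo.two_eq_zero
    have := congrArg (C (σ := Fin g) (R := k)) h1
    rw [map_ofNat, map_zero] at this
    exact this
  linear_combination r * h

/-- `x + inv x - [2](x)` lies in `m ([2](x))`. -/
theorem a_sub_two (i : Fin g) :
    (X i + G.inv i) - G.two i ∈ maximalIdeal (MvPowerSeries (Fin g) k) * G.J2 := by
  have h := G.mixed G.inv G.two G.const_inv G.const_two i
  rw [G.inv_add_two] at h
  have h2 := add_self' (k := k) (G.inv i)
  have h3 : (X i + G.inv i) - G.two i = X i - G.inv i - G.two i := by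
    linear_combination h2
  rw [h3]
  exact h

/-- The series `V_i` with `[2](x)_i = V_i(x ^ 2)`. -/
noncomputable def ver (i : Fin g) : MvPowerSeries (Fin g) k :=
  fun a => coeff (Finsupp.sumElim a a) (G.F i)

theorem two_eq (i : Fin g) : G.two i = expand 2 two_ne_zero (G.ver i) :=
  double_eq_expand (G.F i) (G.comm i)

theorem const_ver (i : Fin g) : constantCoeff (G.ver i) = 0 := by
  have h := G.const_two i
  rwa [two_eq, constantCoeff_expand] at h

/-- The ideal of series of order at least `n`. -/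
def ordIdeal (k : Type u) [Field k] (g n : ℕ) : Ideal (MvPowerSeries (Fin g) k) where
  carrier := {f | (n : ℕ∞) ≤ order f}
  add_mem' ha hb := le_add_order ha hb
  zero_mem' := by
    change _ ≤ order 0
    rw [order_zero]; exact le_top
  smul_mem' c f hf := by
    change _ ≤ order (c * f)
    exact le_trans (le_trans hf le_add_self) le_order_mul

omit [CharP k 2] in
theorem mem_ordIdeal (n : ℕ) (f : MvPowerSeries (Fin g) k) :
    f ∈ ordIdeal k g n ↔ (n : ℕ∞) ≤ order f := Iff.rfl

theorem J2_le : G.J2 ≤ ordIdeal k g 2 := by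
  rw [J2, Ideal.span_le]
  rintro _ ⟨i, rfl⟩
  rw [SetLike.mem_coe, mem_ordIdeal, two_eq, order_expand]
  have h1 : (1 : ℕ∞) ≤ order (G.ver i) := one_le_order_iff_constCoeff_eq_zero.2 (G.const_ver i)
  calc ((2 : ℕ) : ℕ∞) = 2 • (1 : ℕ∞) := by rw [nsmul_eq_mul, mul_one]
    _ ≤ 2 • order (G.ver i) := nsmul_le_nsmul_right h1 2

/-- The elements `x_i + inv x_i`. -/
theorem a_mem (i : Fin g) : X i + G.inv i ∈ G.J2 := by
  have h1 : _ ∈ G.J2 := Ideal.mul_le_right (G.a_sub_two i)
  have h2 : X i + G.inv i = ((X i + G.inv i) - G.two i) + G.two i := by ring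
  rw [h2]
  exact Ideal.add_mem _ h1 (Ideal.subset_span ⟨i, rfl⟩)

/-- The norms `u_i = x_i inv x_i`. -/
noncomputable def nrm (i : Fin g) : MvPowerSeries (Fin g) k := X i * G.inv i

theorem nrm_sub (i : Fin g) : G.nrm i - X i ^ 2 = X i * (X i + G.inv i) := by
  have h2 := add_self' (k := k) (X i ^ 2 : MvPowerSeries (Fin g) k)
  rw [nrm]
  linear_combination - h2

omit [CharP k 2] in
theorem const_nrm (i : Fin g) : constantCoeff (G.nrm i) = 0 := by
  rw [nrm, map_mul, constantCoeff_X, zero_mul]

omit [CharP k 2] in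
theorem hasSubst_nrm : HasSubst G.nrm := hasSubst_of_constantCoeff_zero G.const_nrm

theorem nrm_sub_order (i : Fin g) : ((3 : ℕ) : ℕ∞) ≤ order (G.nrm i - X i ^ 2) := by
  rw [nrm_sub]
  have h1 : ((1 : ℕ) : ℕ∞) ≤ order (X i : MvPowerSeries (Fin g) k) := by
    rw [Nat.cast_one, one_le_order_iff_constCoeff_eq_zero, constantCoeff_X]
  exact le_mul_order h1 (G.J2_le (G.a_mem i))

theorem nrm_order (i : Fin g) : ((2 : ℕ) : ℕ∞) ≤ order (G.nrm i) := by
  have h : G.nrm i = (G.nrm i - X i ^ 2) + X i ^ 2 := by ring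
  rw [h]
  exact le_add_order (le_trans (by exact_mod_cast (by omega : 2 ≤ 3)) (G.nrm_sub_order i))
    (order_X_sq i)

/-- The embedding of `k[[u]]`. -/
noncomputable def emb : MvPowerSeries (Fin g) k →ₐ[k] MvPowerSeries (Fin g) k :=
  substAlgHom G.hasSubst_nrm

theorem emb_X (i : Fin g) : G.emb (X i) = G.nrm i := by
  rw [emb, substAlgHom_X]

omit [CharP k 2] in
theorem sgn_nrm (i : Fin g) : G.sgn (G.nrm i) = G.nrm i := by
  rw [nrm, map_mul, sgn_X, ← G.sgn_X i, sgn_sgn, mul_comm]

theorem emb_ver (i : Fin g) :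
    G.emb (G.ver i) - G.two i ∈ maximalIdeal (MvPowerSeries (Fin g) k) * G.J2 := by
  rw [two_eq]
  refine hom_diff G.emb (expand 2 two_ne_zero) _ ?_ ?_ (G.ver i)
  · intro j
    rw [emb_X, expand_X, nrm_sub]
    refine Ideal.mul_mem_mul ?_ (G.a_mem j)
    rw [mem_max, constantCoeff_X]
  · intro j
    rw [expand_X, mem_max, map_pow, constantCoeff_X]
    exact zero_pow two_ne_zero

theorem map_eq_J2 : (Ideal.span (Set.range G.ver)).map G.emb = G.J2 := by
  apply le_antisymm
  · rw [Ideal.map_span, Ideal.span_le]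
    rintro _ ⟨_, ⟨i, rfl⟩, rfl⟩
    have h1 : _ ∈ G.J2 := Ideal.mul_le_right (G.emb_ver i)
    have h2 : G.emb (G.ver i) = (G.emb (G.ver i) - G.two i) + G.two i := by ring
    rw [SetLike.mem_coe, show (G.emb : MvPowerSeries (Fin g) k → MvPowerSeries (Fin g) k)
      (G.ver i) = _ from h2]
    exact Ideal.add_mem _ h1 (Ideal.subset_span ⟨i, rfl⟩)
  · refine Submodule.le_of_le_smul_of_le_jacobson_bot
      (I := maximalIdeal (MvPowerSeries (Fin g) k))
      (Submodule.fg_span (Set.finite_range _)) (IsLocalRing.maximalIdeal_le_jacobson _) ?_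
    conv_lhs => rw [J2]
    rw [Ideal.span_le]
    rintro _ ⟨i, rfl⟩
    have h2 : G.two i = G.emb (G.ver i) - (G.emb (G.ver i) - G.two i) := by ring
    rw [SetLike.mem_coe, h2]
    exact Submodule.sub_mem _ (Submodule.mem_sup_left
      (Ideal.mem_map_of_mem _ (Ideal.subset_span ⟨i, rfl⟩)))
      (Submodule.mem_sup_right (G.emb_ver i))

/-- The invariants of the substitutions fixing the norms contain the image of `k[[u]]`. -/
theorem sgn_emb (p : MvPowerSeries (Fin g) k) : G.sgn (G.emb p) = G.emb p := by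
  rw [sgn_apply, emb, substAlgHom_apply, subst_comp_subst_apply G.hasSubst_nrm G.hasSubst_inv]
  congr 1
  funext i
  rw [← sgn_apply, sgn_nrm]

/-- The datum attached to a formal group law with finite multiplication by two. -/
noncomputable def datum (hfin : FiniteDimensional k (MvPowerSeries (Fin g) k ⧸ G.J2)) :
    Datum k g (MvPowerSeries (Fin g) k) where
  φ := G.emb
  x := fun i => X i
  ι := G.sgn
  w := G.ver
  ιφ := G.sgn_emb
  ιι := G.sgn_sgn
  hb := comb_bijective G.hasSubst_nrm G.const_nrm G.nrm_order G.nrm_sub_order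
  hw := G.const_ver
  hx := fun i => by rw [mem_max, constantCoeff_X]
  hφ := fun p hp => by
    rw [mem_max, emb, const_subst G.hasSubst_nrm G.const_nrm, hp]
  haw := fun i => by
    rw [G.map_eq_J2, sgn_X]
    have h : (X i + G.inv i) - G.emb (G.ver i)
        = ((X i + G.inv i) - G.two i) - (G.emb (G.ver i) - G.two i) := by ring
    rw [h]
    exact Ideal.sub_mem _ (G.a_sub_two i) (G.emb_ver i)
  hfin := by rw [G.map_eq_J2]; exact hfin
  rs := List.ofFn (fun i : Fin g => (X i : MvPowerSeries (Fin g) k))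
  hrs := fun r hr => by
    obtain ⟨i, rfl⟩ := (List.mem_ofFn' _ r).1 hr
    rw [mem_max, constantCoeff_X]
  hlen := List.length_ofFn
  hreg := isWeaklyRegular_X g

/-- **Main theorem.** The ring of invariants of the inverse of a formal group of dimension `g`
in characteristic two with finite multiplication by two has embedding dimension `2 ^ g - 1`. -/
theorem finrank_cotangent (hfin : FiniteDimensional k (MvPowerSeries (Fin g) k ⧸ G.J2))
    [IsLocalRing (Inv G.sgn)] :
    Module.finrank (ResidueField (Inv G.sgn)) (CotangentSpace (Inv G.sgn)) = 2 ^ g - 1 :=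
  have h : IsLocalRing (Inv (G.datum hfin).ι) := ‹IsLocalRing (Inv G.sgn)›
  (G.datum hfin).finrank_cotangent

end FormalGroupLaw

end Q43.KM
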