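import Pool.Agent.Q43.KM.Main

/-! # The ring of invariants is Noetherian -/

universe u

namespace Q43.KM

open MvPowerSeries IsLocalRing

theorem Datum.isNoetherian {k : Type u} [Field k] {g : ℕ} {R : Type u} [CommRing R] [Algebra k R]
    [IsLocalRing R] (D : Datum k g R) : IsNoetherianRing (Inv D.ι) := by
  let _ : Algebra (MvPowerSeries (Fin g) k) R := D.φ.toRingHom.toAlgebra
  let _ : Algebra (MvPowerSeries (Fin g) k) (Inv D.ι) :=
    (D.φ.toRingHom.codRestrict (Inv D.ι) (fun p => D.ιφ p)).toAlgebra
  have hfin : Module.Finite (MvPowerSeries (Fin g) k) R := by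
    let L : (Finset (Fin g) → MvPowerSeries (Fin g) k) →ₗ[MvPowerSeries (Fin g) k] R :=
      { toFun := comb D.φ D.x
        map_add' := (combLin D.φ D.x).map_add
        map_smul' := fun p c => by
          change comb D.φ D.x (fun I => p * c I) = D.φ p * comb D.φ D.x c
          exact comb_smul _ _ p c }
    exact Module.Finite.of_surjective L D.hb.2
  have hN : IsNoetherian (MvPowerSeries (Fin g) k) R := isNoetherian_of_isNoetherianRing_of_finite _ _
  let i : Inv D.ι →ₗ[MvPowerSeries (Fin g) k] R :=
    { toFun := fun s => (s : R)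
      map_add' := fun _ _ => rfl
      map_smul' := fun _ _ => rfl }
  have hS : IsNoetherian (MvPowerSeries (Fin g) k) (Inv D.ι) :=
    isNoetherian_of_injective i Subtype.val_injective
  exact isNoetherian_of_tower (MvPowerSeries (Fin g) k) hS

end Q43.KM
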