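import Mathlib

/-! # Systems of parameters are regular sequences

A criterion (after Kaplansky): over a Noetherian local ring, if the first `n` Ext groups of the
residue field with values in a finite module `M` vanish, then any `n` elements of the maximal ideal
which generate, together with the annihilator of `M`, an ideal primary to the maximal ideal, form
an `M`-regular sequence. -/

universe u

namespace Q43.KM

open IsLocalRing RingTheory.Sequence CategoryTheory Abelian Pointwise

variable {R : Type u} [CommRing R]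

/-- Davis' coset version of prime avoidance. -/
theorem davis (s : Set (Ideal R)) (hs : s.Finite) (hp : ∀ P ∈ s, P.IsPrime) (x : R) (J : Ideal R)
    (h : ∀ P ∈ s, ¬ (Ideal.span {x} ⊔ J ≤ P)) : ∃ t ∈ J, ∀ P ∈ s, x + t ∉ P := by
  classical
  -- maximal elements of `s`
  have hle : ∀ P ∈ s, ∃ Q ∈ s, (∀ Q' ∈ s, Q ≤ Q' → Q = Q') ∧ P ≤ Q := by
    intro P hP
    obtain ⟨Q, hPQ, hQ⟩ := hs.exists_le_maximal hP
    exact ⟨Q, hQ.1, fun Q' hQ' hle => le_antisymm hle (hQ.2 hQ' hle), hPQ⟩
  set A : Finset (Ideal R) := hs.toFinset.filter (fun P => (∀ Q ∈ s, P ≤ Q → P = Q) ∧ x ∈ P) with hA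
  set B : Finset (Ideal R) := hs.toFinset.filter (fun P => (∀ Q ∈ s, P ≤ Q → P = Q) ∧ x ∉ P) with hB
  have memA : ∀ P, P ∈ A ↔ P ∈ s ∧ (∀ Q ∈ s, P ≤ Q → P = Q) ∧ x ∈ P := by
    intro P; rw [hA, Finset.mem_filter, Set.Finite.mem_toFinset]
  have memB : ∀ P, P ∈ B ↔ P ∈ s ∧ (∀ Q ∈ s, P ≤ Q → P = Q) ∧ x ∉ P := by
    intro P; rw [hB, Finset.mem_filter, Set.Finite.mem_toFinset]
  clear_value A B
  have hKnot : ∀ P ∈ A, ¬ (J * ∏ P ∈ B, P) ≤ P := by
    intro P hP hKP
    have hP' := (memA P).1 hP
    have hPprime : P.IsPrime := hp P hP'.1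
    rcases hPprime.mul_le.1 hKP with h1 | h1
    · exact h P hP'.1 (sup_le ((Ideal.span_singleton_le_iff_mem P).2 hP'.2.2) h1)
    · obtain ⟨Q, hQ, hQP⟩ := (hPprime.prod_le).1 h1
      have hQB := (memB Q).1 hQ
      have : Q = P := hQB.2.1 P hP'.1 hQP
      exact hQB.2.2 (this ▸ hP'.2.2)
  have hex : ∃ t ∈ (J * ∏ P ∈ B, P), ∀ P ∈ A, t ∉ P := by
    by_contra hcon
    have hsub : ((J * ∏ P ∈ B, P : Ideal R) : Set R) ⊆ ⋃ P ∈ (A : Set (Ideal R)), ((P : Ideal R) : Set R) := by
      intro t ht
      by_contra hnot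
      refine hcon ⟨t, ht, fun P hP hmem => hnot ?_⟩
      exact Set.mem_iUnion₂.2 ⟨P, hP, hmem⟩
    obtain ⟨P, hP, hle⟩ := (Ideal.subset_union_prime (s := A) (f := fun P : Ideal R => P) ⊥ ⊥
      (fun P hP _ _ => hp P ((memA P).1 hP).1)).1 hsub
    exact hKnot P hP hle
  obtain ⟨t, htK, htA⟩ := hex
  have hJ : (J * ∏ P ∈ B, P : Ideal R) ≤ J := Ideal.mul_le_left
  refine ⟨t, hJ htK, ?_⟩
  intro P hP
  obtain ⟨Q, hQs, hQm, hPQ⟩ := hle P hP
  intro hmem
  have hmemQ : x + t ∈ Q := hPQ hmem
  by_cases hx : x ∈ Q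
  · refine htA Q ((memA Q).2 ⟨hQs, hQm, hx⟩) ?_
    have := Q.sub_mem hmemQ hx
    rwa [add_sub_cancel_left] at this
  · have htQ : t ∈ Q := by
      have h1 : (J * ∏ P ∈ B, P) ≤ ∏ P ∈ B, P := Ideal.mul_le_right
      have h2 : (∏ P ∈ B, P : Ideal R) ≤ Q :=
        (Ideal.prod_le_inf).trans (Finset.inf_le (f := fun P : Ideal R => P) ((memB Q).2 ⟨hQs, hQm, hx⟩))
      exact h2 (h1 htK)
    exact hx (by
      have := Q.sub_mem hmemQ htQ
      rwa [add_sub_cancel_right] at this)

/-- Vanishing of the first `n` Ext groups from the residue field. -/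
def ExtVan (R : Type u) [CommRing R] [IsLocalRing R] (n : ℕ) (M : Type u) [AddCommGroup M]
    [Module R M] : Prop :=
  ∀ i < n, Subsingleton (Ext (ModuleCat.of R (R ⧸ maximalIdeal R)) (ModuleCat.of R M) i)

theorem ExtVan.quot [IsLocalRing R] {n : ℕ} {M : Type u} [AddCommGroup M] [Module R M]
    (h : ExtVan R (n + 1) M) {y : R} (hy : IsSMulRegular M y) : ExtVan R n (QuotSMulTop y M) := by
  intro i hi
  have zero1 := AddCommGrpCat.isZero_of_iff_subsingleton.mpr (h i (by omega))
  have zero2 := AddCommGrpCat.isZero_of_iff_subsingleton.mpr (h (i + 1) (by omega))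
  exact AddCommGrpCat.subsingleton_of_isZero <| ShortComplex.Exact.isZero_of_both_zeros
    ((Ext.covariant_sequence_exact₃' _
      (IsSMulRegular.smulShortComplex_shortExact (M := ModuleCat.of R M) hy)) i (i + 1) rfl)
    (zero1.eq_zero_of_src _) (zero2.eq_zero_of_tgt _)

theorem ExtVan.exists_regular [IsLocalRing R] [IsNoetherianRing R] {n : ℕ} {M : Type u}
    [AddCommGroup M] [Module R M] [Module.Finite R M]
    (h : ExtVan R (n + 1) M) : ∃ r ∈ maximalIdeal R, IsSMulRegular M r := by
  have h0 : Subsingleton ((ModuleCat.of R (R ⧸ maximalIdeal R)) ⟶ (ModuleCat.of R M)) :=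
    Ext.addEquiv₀.subsingleton_congr.mp (h 0 n.zero_lt_succ)
  have h1 : Subsingleton ((R ⧸ maximalIdeal R) →ₗ[R] M) :=
    (ModuleCat.homAddEquiv (M := ModuleCat.of R (R ⧸ maximalIdeal R))
      (N := ModuleCat.of R M)).symm.subsingleton
  obtain ⟨x, mem_ann, hx⟩ := IsSMulRegular.subsingleton_linearMap_iff.mp h1
  rw [Ideal.annihilator_quotient] at mem_ann
  exact ⟨x, mem_ann, hx⟩

theorem isWeaklyRegular_of_extVan [IsLocalRing R] [IsNoetherianRing R] :
    ∀ (xs : List R) (M : Type u) [AddCommGroup M] [Module R M] [Module.Finite R M]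
      (_ : ExtVan R xs.length M) (_ : ∀ x ∈ xs, x ∈ maximalIdeal R)
      (_ : maximalIdeal R ≤ (Ideal.ofList xs ⊔ Module.annihilator R M).radical),
      IsWeaklyRegular M xs := by
  intro xs
  induction xs with
  | nil => intro M _ _ _ _ _ _; exact IsWeaklyRegular.nil R M
  | cons x xs ih =>
    intro M _ _ _ hE hx hrad
    rw [List.length_cons] at hE
    have hass : ∀ P ∈ associatedPrimes R M, ¬ (Ideal.span {x} ⊔ Ideal.ofList xs ≤ P) := by
      intro P hP hle
      obtain ⟨r, hr, hreg⟩ := hE.exists_regular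
      have hPp : P.IsPrime := hP.isPrime
      have hle2 : Ideal.ofList (x :: xs) ⊔ Module.annihilator R M ≤ P := by
        refine sup_le ?_ (by
          have := IsAssociatedPrime.annihilator_le hP
          rwa [Submodule.annihilator_top] at this)
        rw [Ideal.ofList_cons]
        exact hle
      have hrP : r ∈ P := (hPp.radical_le_iff.2 hle2) (hrad hr)
      have : r ∈ (⋃ p ∈ associatedPrimes R M, (p : Set R)) := by
        simp only [Set.mem_iUnion]
        exact ⟨P, hP, hrP⟩
      rw [biUnion_associatedPrimes_eq_compl_regular] at this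
      exact this hreg
    obtain ⟨t, htJ, ht⟩ := davis (associatedPrimes R M) (associatedPrimes.finite R M)
      (fun P hP => hP.isPrime) x (Ideal.ofList xs) hass
    have hy : IsSMulRegular M (x + t) := by
      by_contra hcon
      have : (x + t) ∈ (⋃ p ∈ associatedPrimes R M, (p : Set R)) := by
        rw [biUnion_associatedPrimes_eq_compl_regular]
        exact hcon
      simp only [Set.mem_iUnion] at this
      obtain ⟨P, hP, hmem⟩ := this
      exact ht P hP hmem
    have hxs : ∀ z ∈ xs, z ∈ maximalIdeal R := fun z hz => hx z (List.mem_cons_of_mem _ hz)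
    have hJm : Ideal.ofList xs ≤ maximalIdeal R := Ideal.span_le.2 (fun z hz => hxs z hz)
    have hxm : x ∈ maximalIdeal R := hx x List.mem_cons_self
    have hyann : (x + t) ∈ Module.annihilator R (QuotSMulTop (x + t) M) := by
      rw [Module.mem_annihilator]
      intro m
      obtain ⟨m, rfl⟩ := Submodule.Quotient.mk_surjective _ m
      rw [← Submodule.Quotient.mk_smul, Submodule.Quotient.mk_eq_zero]
      exact Submodule.smul_mem_pointwise_smul m _ _ Submodule.mem_top
    have hann : Module.annihilator R M ≤ Module.annihilator R (QuotSMulTop (x + t) M) :=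
      LinearMap.annihilator_le_of_surjective _ (Submodule.mkQ_surjective _)
    have hIH : IsWeaklyRegular (QuotSMulTop (x + t) M) xs := by
      refine ih (QuotSMulTop (x + t) M) (hE.quot hy) hxs (hrad.trans (Ideal.radical_mono ?_))
      refine sup_le ?_ (hann.trans le_sup_right)
      rw [Ideal.ofList_cons]
      refine sup_le ?_ le_sup_left
      rw [Ideal.span_singleton_le_iff_mem]
      have h1 := Ideal.sub_mem _ (Ideal.mem_sup_right (S := Ideal.ofList xs) hyann)
        (Ideal.mem_sup_left (T := Module.annihilator R (QuotSMulTop (x + t) M)) htJ)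
      rwa [add_sub_cancel_right] at h1
    have hreg1 : IsWeaklyRegular M ((x + t) :: xs) :=
      (isWeaklyRegular_cons_iff M (x + t) xs).2 ⟨hy, hIH⟩
    have hperm : ((x + t) :: xs).Perm (xs ++ [x + t]) := (List.perm_append_singleton _ _).symm
    have hreg2 : IsWeaklyRegular M (xs ++ [x + t]) := by
      refine IsLocalRing.isWeaklyRegular_of_perm_of_subset_maximalIdeal hreg1 hperm ?_
      intro z hz
      rcases List.mem_cons.1 hz with rfl | hz
      · exact Ideal.add_mem _ hxm (hJm htJ)
      · exact hxs z hz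
    rw [isWeaklyRegular_append_iff, isWeaklyRegular_singleton_iff] at hreg2
    have hreg3 : IsWeaklyRegular M (xs ++ [x]) := by
      rw [isWeaklyRegular_append_iff, isWeaklyRegular_singleton_iff]
      refine ⟨hreg2.1, ?_⟩
      have heq : ∀ m : M ⧸ (Ideal.ofList xs • ⊤ : Submodule R M), (x + t) • m = x • m := by
        intro m
        obtain ⟨m, rfl⟩ := Submodule.Quotient.mk_surjective _ m
        have h0 : t • (Submodule.Quotient.mk m : M ⧸ (Ideal.ofList xs • ⊤ : Submodule R M)) = 0 := by
          rw [← Submodule.Quotient.mk_smul, Submodule.Quotient.mk_eq_zero]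
          exact Submodule.smul_mem_smul htJ Submodule.mem_top
        rw [add_smul, h0, add_zero]
      intro m1 m2 h12
      exact hreg2.2 (by simpa only [heq] using h12)
    exact IsLocalRing.isWeaklyRegular_of_perm_of_subset_maximalIdeal hreg3
      (List.perm_append_singleton _ _) (by
        intro z hz
        rcases List.mem_append.1 hz with hz | hz
        · exact hxs z hz
        · rw [List.mem_singleton.1 hz]; exact hxm)

/-- In a Noetherian local ring whose maximal ideal contains a regular sequence of length `n`, any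
`n` elements of the maximal ideal generating an ideal primary to it form a regular sequence. -/
theorem isWeaklyRegular_of_primary [IsLocalRing R] [IsNoetherianRing R] (rs xs : List R)
    (hrs : ∀ r ∈ rs, r ∈ maximalIdeal R) (hreg : IsWeaklyRegular R rs)
    (hlen : xs.length = rs.length) (hx : ∀ x ∈ xs, x ∈ maximalIdeal R)
    (hrad : maximalIdeal R ≤ (Ideal.ofList xs).radical) : IsWeaklyRegular R xs := by
  refine isWeaklyRegular_of_extVan xs R ?_ hx (hrad.trans (Ideal.radical_mono le_sup_left))
  rw [hlen]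
  have hreg' : IsRegular R rs := IsRegular.of_isWeaklyRegular_of_mem_maximalIdeal R hrs hreg
  refine ModuleCat.subsingleton_ext_of_exists_isRegular (maximalIdeal R) _ ?_
    (ModuleCat.of R R) ?_ rs hrs hreg'
  · change Module.support R (R ⧸ maximalIdeal R) ⊆ _
    rw [Module.support_eq_zeroLocus, Ideal.annihilator_quotient]
  · rw [smul_eq_mul, Ideal.mul_top]
    exact lt_top_iff_ne_top.2 (Ideal.IsPrime.ne_top inferInstance)

end Q43.KM
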