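import Pool.Agent.Q43.KM.Reg

/-! # The variables of a power series ring form a regular sequence -/

universe u v

namespace Q43.KM

open MvPowerSeries RingTheory.Sequence

variable {σ : Type v} {k : Type u} [CommRing k]

/-- Membership in the ideal generated by a finite set of variables. -/
theorem mem_span_X_iff (A : Finset σ) (f : MvPowerSeries σ k) :
    f ∈ Ideal.span ((fun i => (X i : MvPowerSeries σ k)) '' (A : Set σ)) ↔
      ∀ m : σ →₀ ℕ, (∀ j ∈ A, m j = 0) → coeff m f = 0 := by
  classical
  constructor
  · intro hf
    induction hf using Submodule.span_induction with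
    | mem x hx =>
      obtain ⟨j, hj, rfl⟩ := hx
      intro m hm
      exact (X_dvd_iff.1 (dvd_refl (X j : MvPowerSeries σ k))) m (hm j hj)
    | zero => intro m _; simp
    | add x y _ _ hx hy => intro m hm; rw [map_add, hx m hm, hy m hm, add_zero]
    | smul a x _ hx =>
      intro m hm
      rw [smul_eq_mul, coeff_mul]
      refine Finset.sum_eq_zero (fun p hp => ?_)
      rw [Finset.HasAntidiagonal.mem_antidiagonal] at hp
      rw [hx p.2 (fun j hj => ?_), mul_zero]
      have := hm j hj
      rw [← hp] at this
      simp only [Finsupp.add_apply] at this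
      omega
  · induction A using Finset.induction_on generalizing f with
    | empty =>
      intro h
      have : f = 0 := by
        ext m
        rw [h m (by simp)]
        simp
      rw [this]
      exact Submodule.zero_mem _
    | insert j A hj ih =>
      intro h
      let f0 : MvPowerSeries σ k := fun m => if m j = 0 then coeff m f else 0
      have hf0 : ∀ m, coeff m f0 = if m j = 0 then coeff m f else 0 := fun m => rfl
      have h1 : (X j : MvPowerSeries σ k) ∣ f - f0 := by
        rw [X_dvd_iff]
        intro m hm
        rw [map_sub, hf0, if_pos hm, sub_self]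
      have h2 : f0 ∈ Ideal.span ((fun i => (X i : MvPowerSeries σ k)) '' (A : Set σ)) := by
        refine ih f0 (fun m hm => ?_)
        rw [hf0]
        split_ifs with hmj
        · refine h m (fun i hi => ?_)
          rcases Finset.mem_insert.1 hi with rfl | hi
          · exact hmj
          · exact hm i hi
        · rfl
      have h3 : f = (f - f0) + f0 := by ring
      rw [h3]
      refine Ideal.add_mem _ ?_ (Ideal.span_mono (Set.image_mono (by simp)) h2)
      obtain ⟨c, hc⟩ := h1
      rw [hc]
      exact Ideal.mul_mem_right _ _ (Ideal.subset_span ⟨j, by simp, rfl⟩)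

theorem isWeaklyRegular_X (g : ℕ) :
    IsWeaklyRegular (MvPowerSeries (Fin g) k) (List.ofFn (fun i : Fin g => (X i : MvPowerSeries (Fin g) k))) := by
  rw [isWeaklyRegular_iff_Fin]
  rintro ⟨i, hi⟩
  have hi' : i < g := by simpa using hi
  have hideal : Ideal.ofList (List.take i (List.ofFn (fun i : Fin g => (X i : MvPowerSeries (Fin g) k))))
      = Ideal.span ((fun i => (X i : MvPowerSeries (Fin g) k)) ''
        ((Finset.univ.filter (fun j : Fin g => (j : ℕ) < i) : Finset (Fin g)) : Set (Fin g))) := by
    refine congrArg Ideal.span ?_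
    ext z
    simp only [Set.mem_ofPred_eq, Set.mem_image, Finset.coe_filter, Finset.mem_univ, true_and]
    constructor
    · intro hz
      rw [List.mem_take_iff_getElem] at hz
      obtain ⟨j, hj, hz⟩ := hz
      have hj' : j < i ∧ j < g := by simpa using hj
      refine ⟨⟨j, hj'.2⟩, hj'.1, ?_⟩
      rw [← hz]
      simp
    · rintro ⟨j, hj, rfl⟩
      rw [List.mem_take_iff_getElem]
      refine ⟨j, by simp [hj], by simp⟩
  have hget : (List.ofFn (fun i : Fin g => (X i : MvPowerSeries (Fin g) k)))[i] = X ⟨i, hi'⟩ := by simp
  rw [isSMulRegular_quotient_iff_mem_of_smul_mem]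
  intro f hf
  change (List.ofFn (fun i : Fin g => (X i : MvPowerSeries (Fin g) k)))[i] • f ∈ _ at hf
  rw [hget, smul_eq_mul (a := Ideal.ofList _), Ideal.mul_top, hideal, mem_span_X_iff] at hf
  rw [smul_eq_mul, Ideal.mul_top, hideal, mem_span_X_iff]
  intro m hm
  have h := hf (m + Finsupp.single ⟨i, hi'⟩ 1) (fun j hj => by
    have hj1 := hm j hj
    have hji : (j : ℕ) < i := by simpa using hj
    have hne : (⟨i, hi'⟩ : Fin g) ≠ j := fun h => by
      rw [← h] at hji
      exact lt_irrefl _ hji
    rw [Finsupp.add_apply, hj1, Finsupp.single_apply, if_neg hne, add_zero])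
  rw [smul_eq_mul, mul_comm, X, coeff_add_mul_monomial, mul_one] at h
  exact h

end Q43.KM
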